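import Mathlib

/-!
# Covering a neighbourhood of the standard fundamental domain by finitely many translates
-/

set_option autoImplicit false
open MeasureTheory Complex Set
open scoped ENNReal

namespace Pool.Agent.R314.JM

noncomputable section

/-- the open upper half plane -/
def HH : Set ℂ := {z | 0 < z.im}

/-- the standard fundamental domain of the modular group -/
def DD : Set ℂ := {z : ℂ | 0 < z.im ∧ |z.re| ≤ 1 / 2 ∧ 1 ≤ ‖z‖}

/-- invariance under `z ↦ z + 1` and `z ↦ -1/z` -/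
def Inv (F : ℂ → ℝ) : Prop := ∀ z : ℂ, 0 < z.im → F (z + 1) = F z ∧ F (-z⁻¹) = F z

/-- the hyperbolic integral of a nonnegative function -/
def LL (F : ℂ → ℝ) (A : Set ℂ) : ℝ≥0∞ := ∫⁻ z in A, ENNReal.ofReal (F z / z.im ^ 2)

lemma det_mul (c : ℂ) (L : ℂ →L[ℝ] ℂ) (hL : ∀ v, L v = c * v) : L.det = Complex.normSq c := by
  have h1 : (L : ℂ →ₗ[ℝ] ℂ) = Algebra.lmul ℝ ℂ c := by
    ext v
    all_goals simp [hL]
  rw [ContinuousLinearMap.det, h1, ← Algebra.norm_complex_apply]
  rfl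

lemma img {F : ℂ → ℝ} {g g' : ℂ → ℂ} {A : Set ℂ} (hA : MeasurableSet A) (hAH : A ⊆ HH)
    (hg : ∀ z ∈ A, HasDerivAt g (g' z) z) (hi : InjOn g A)
    (hn : ∀ z ∈ A, (g z).im = z.im * Complex.normSq (g' z) ^ (1 / 2 : ℝ))
    (hF : ∀ z ∈ A, F (g z) = F z) (hn0 : ∀ z ∈ A, 0 < Complex.normSq (g' z)) :
    LL F (g '' A) = LL F A := by
  unfold LL
  rw [lintegral_image_eq_lintegral_abs_det_fderiv_mul (volume : Measure ℂ) hA
    (f' := fun w => (ContinuousLinearMap.toSpanSingleton ℂ (g' w)).restrictScalars ℝ)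
    (fun z hz => ((hg z hz).hasFDerivAt.restrictScalars ℝ).hasFDerivWithinAt) hi]
  refine setLIntegral_congr_fun hA fun z hz => ?_
  have hz' : 0 < z.im := hAH hz
  have h0 := hn0 z hz
  rw [det_mul (g' z) _ (fun v => by simp [mul_comm]), abs_of_pos h0, ← ENNReal.ofReal_mul h0.le, hF z hz,
    hn z hz]
  congr 1
  have e1 : (normSq (g' z) ^ (1 / 2 : ℝ)) ^ 2 = normSq (g' z) := by
    rw [← Real.rpow_natCast, ← Real.rpow_mul h0.le]
    norm_num
  rw [mul_pow, e1]
  field_simp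

lemma mS : MeasurableSet DD := by
  unfold DD
  have h1 : MeasurableSet {z : ℂ | 0 < z.im} := measurableSet_lt measurable_const Complex.measurable_im
  have h2 : MeasurableSet {z : ℂ | |z.re| ≤ 1 / 2} :=
    measurableSet_le (continuous_abs.measurable.comp Complex.measurable_re) measurable_const
  have h3 : MeasurableSet {z : ℂ | 1 ≤ ‖z‖} := measurableSet_le measurable_const measurable_norm
  exact h1.inter (h2.inter h3)

lemma DH : DD ⊆ HH := fun _ h => h.1

/-- translations -/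
lemma imgT {F : ℂ → ℝ} (hF : Inv F) {A : Set ℂ} (hA : MeasurableSet A) (hAH : A ⊆ HH) (k : ℤ)
    (hk : k = 0 ∨ k = 1 ∨ k = -1) : LL F ((fun z => z + (k : ℂ)) '' A) = LL F A := by
  refine img (g' := fun _ => 1) hA hAH (fun z _ => by simpa using (hasDerivAt_id z).add_const (k : ℂ))
    (fun x _ y _ h => by simpa using h) (fun z _ => by simp) (fun z hz => ?_) (fun z _ => by simp)
  have hz' : 0 < z.im := hAH hz
  rcases hk with h | h | h
  · subst h; simp
  · subst h; simpa using (hF z hz').1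
  · subst h
    have h1 := (hF (z + (((-1 : ℤ)) : ℂ)) (by simpa using hz')).1
    rw [← h1]
    congr 1
    push_cast; ring

/-- the inversion -/
lemma imgS {F : ℂ → ℝ} (hF : Inv F) {A : Set ℂ} (hA : MeasurableSet A) (hAH : A ⊆ HH) :
    LL F ((fun z => -z⁻¹) '' A) = LL F A := by
  have hne : ∀ z ∈ A, z ≠ 0 := fun z hz h => by
    have : 0 < z.im := hAH hz
    rw [h] at this; simp at this
  refine img (g' := fun z => (z ^ 2)⁻¹) hA hAH (fun z hz => ?_)
    (fun x hx y hy h => by simpa using h) (fun z hz => ?_) (fun z hz => (hF z (hAH hz)).2) (fun z hz => ?_)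
  · have h := (hasDerivAt_inv (hne z hz)).neg
    rw [neg_neg] at h
    exact h
  · have h0 : 0 < normSq z := normSq_pos.2 (hne z hz)
    have e : normSq ((z ^ 2)⁻¹) = ((normSq z) ^ 2)⁻¹ := by rw [map_inv₀, map_pow]
    have e2 : (((normSq z) ^ 2)⁻¹) ^ (1 / 2 : ℝ) = (normSq z)⁻¹ := by
      rw [← inv_pow, ← Real.rpow_natCast, ← Real.rpow_mul (by positivity)]
      norm_num
    rw [e, e2, neg_im, inv_im]
    field_simp
  · exact normSq_pos.2 (inv_ne_zero (pow_ne_zero 2 (hne z hz)))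

lemma LL_mono {F : ℂ → ℝ} {A B : Set ℂ} (h : A ⊆ B) : LL F A ≤ LL F B := lintegral_mono_set h

/-- the inner strip -/
def VV : Set ℂ := {z : ℂ | |z.re| ≤ 1 / 2 ∧ 4 / 5 < z.im}

/-- the neighbourhood of the fundamental domain -/
def BB : Set ℂ := {z : ℂ | |z.re| < 1 ∧ 4 / 5 < z.im}

lemma mV : MeasurableSet VV :=
  (measurableSet_le (continuous_abs.measurable.comp Complex.measurable_re) measurable_const).inter
    (measurableSet_lt measurable_const Complex.measurable_im)

lemma VH : VV ⊆ HH := fun z h => by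
  have := h.2
  show 0 < z.im
  linarith

lemma near {x : ℝ} (hx : |x| ≤ 3 / 2) : ∃ k : ℤ, (k = 0 ∨ k = 1 ∨ k = -1) ∧ |x - k| ≤ 1 / 2 := by
  rw [abs_le] at hx
  by_cases h1 : |x| ≤ 1 / 2
  · exact ⟨0, Or.inl rfl, by simpa using h1⟩
  · rw [abs_le, not_and_or, not_le, not_le] at h1
    rcases h1 with h1 | h1
    · refine ⟨-1, Or.inr (Or.inr rfl), ?_⟩
      rw [abs_le]; push_cast
      constructor <;> linarith
    · refine ⟨1, Or.inr (Or.inl rfl), ?_⟩
      rw [abs_le]; push_cast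
      constructor <;> linarith

lemma LL_three {F : ℂ → ℝ} (hF : Inv F) {A : Set ℂ} (hA : MeasurableSet A) (hAH : A ⊆ HH) {B : Set ℂ}
    (h : ∀ z ∈ B, ∃ k : ℤ, (k = 0 ∨ k = 1 ∨ k = -1) ∧ z - k ∈ A) : LL F B ≤ 3 * LL F A := by
  have hsub : B ⊆ ((fun z => z + ((0 : ℤ) : ℂ)) '' A) ∪ (((fun z => z + ((1 : ℤ) : ℂ)) '' A) ∪
      ((fun z => z + (((-1 : ℤ)) : ℂ)) '' A)) := by
    intro z hz
    obtain ⟨k, hk, hzk⟩ := h z hz
    rcases hk with hk | hk | hk
    · exact Or.inl ⟨z - k, hzk, by subst hk; simp⟩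
    · exact Or.inr (Or.inl ⟨z - k, hzk, by subst hk; simp⟩)
    · exact Or.inr (Or.inr ⟨z - k, hzk, by subst hk; simp⟩)
  refine (LL_mono hsub).trans ?_
  unfold LL
  refine (lintegral_union_le _ _ _).trans ?_
  have h0 := imgT hF hA hAH 0 (Or.inl rfl)
  have h1 := imgT hF hA hAH 1 (Or.inr (Or.inl rfl))
  have h2 := imgT hF hA hAH (-1) (Or.inr (Or.inr rfl))
  unfold LL at h0 h1 h2
  refine (add_le_add le_rfl (lintegral_union_le _ _ _)).trans ?_
  rw [h0, h1, h2]
  refine le_of_eq ?_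
  ring

lemma covV {F : ℂ → ℝ} (hF : Inv F) : LL F VV ≤ 4 * LL F DD := by
  set A : Set ℂ := VV ∩ {z | ‖z‖ < 1} with hAd
  have hA : MeasurableSet A := mV.inter (measurableSet_lt measurable_norm measurable_const)
  have hAH : A ⊆ HH := fun z hz => VH hz.1
  have h1 : VV ⊆ DD ∪ A := by
    intro z hz
    by_cases h : 1 ≤ ‖z‖
    · exact Or.inl ⟨VH hz, hz.1, h⟩
    · exact Or.inr ⟨hz, not_le.1 h⟩
  have h2 : LL F A ≤ 3 * LL F DD := by
    rw [← imgS hF hA hAH]
    refine LL_three hF mS DH ?_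
    rintro w ⟨z, ⟨⟨hz1, hz2⟩, hz3⟩, rfl⟩
    have hz3' : ‖z‖ < 1 := hz3
    have him : 0 < z.im := by linarith
    have hz0 : z ≠ 0 := fun h => by rw [h] at him; simp at him
    have hn0 : 0 < normSq z := normSq_pos.2 hz0
    have hn1 : normSq z < 1 := by
      rw [normSq_eq_norm_sq]
      nlinarith [norm_nonneg z]
    have hn2 : 16 / 25 ≤ normSq z := by
      rw [normSq_apply]
      nlinarith [mul_self_nonneg z.re]
    have hre : (-z⁻¹).re = -(z.re / normSq z) := by rw [neg_re, inv_re]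
    have him' : (-z⁻¹).im = z.im / normSq z := by rw [neg_im, inv_im]; ring
    have hb : |(-z⁻¹).re| ≤ 3 / 2 := by
      rw [hre, abs_neg, abs_div, abs_of_pos hn0, div_le_iff₀ hn0]
      nlinarith
    obtain ⟨k, hk, hk2⟩ := near hb
    refine ⟨k, hk, ?_, ?_, ?_⟩
    · show 0 < (-z⁻¹ - (k : ℂ)).im
      rw [sub_im, intCast_im, sub_zero, him']
      positivity
    · show |(-z⁻¹ - (k : ℂ)).re| ≤ 1 / 2
      rw [sub_re, intCast_re]
      exact hk2
    · show 1 ≤ ‖-z⁻¹ - (k : ℂ)‖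
      have e : -z⁻¹ - (k : ℂ) = -((1 + k * z) / z) := by field_simp; ring
      rw [e, norm_neg, norm_div, le_div_iff₀ (norm_pos_iff.2 hz0), one_mul]
      rw [← sq_le_sq₀ (norm_nonneg _) (norm_nonneg _), ← normSq_eq_norm_sq, ← normSq_eq_norm_sq]
      obtain ⟨hx1, hx2⟩ := abs_le.1 hz1
      rcases hk with hk | hk | hk
      · subst hk
        simp only [Int.cast_zero, zero_mul, add_zero, map_one]
        exact hn1.le
      · subst hk
        simp only [Int.cast_one, one_mul, normSq_apply, add_re, add_im, one_re, one_im, zero_add]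
        nlinarith
      · subst hk
        simp only [Int.cast_neg, Int.cast_one, neg_mul, one_mul, normSq_apply, add_re, add_im, one_re, one_im,
          neg_re, neg_im, zero_add]
        nlinarith
  refine (LL_mono h1).trans ?_
  unfold LL at h2 ⊢
  refine (lintegral_union_le _ _ _).trans ?_
  refine (add_le_add le_rfl h2).trans (le_of_eq ?_)
  ring

/-- the neighbourhood is covered by twelve translates -/
lemma cov {F : ℂ → ℝ} (hF : Inv F) : LL F BB ≤ 12 * LL F DD := by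
  have h1 : LL F BB ≤ 3 * LL F VV := by
    refine LL_three hF mV VH ?_
    intro z hz
    obtain ⟨k, hk, hk2⟩ := near (x := z.re) (by linarith [hz.1])
    refine ⟨k, hk, ?_, ?_⟩
    · show |(z - (k : ℂ)).re| ≤ 1 / 2
      rw [sub_re, intCast_re]
      exact hk2
    · show 4 / 5 < (z - (k : ℂ)).im
      rw [sub_im, intCast_im, sub_zero]
      exact hz.2
  refine h1.trans ?_
  refine (mul_le_mul_right (covV hF) _).trans (le_of_eq ?_)
  rw [← mul_assoc]
  norm_num

/-- the bound for continuous functions on compact sets -/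
theorem covK {F : ℂ → ℝ} (hF : Inv F) (hc : ContinuousOn F HH) (h0 : ∀ z, 0 ≤ F z)
    (hi : IntegrableOn (fun z => F z / z.im ^ 2) DD) {K : Set ℂ} (hK : IsCompact K) (hKB : K ⊆ BB) :
    ∫ z in K, F z / z.im ^ 2 ≤ 12 * ∫ z in DD, F z / z.im ^ 2 := by
  have hKH : K ⊆ HH := fun z hz => by
    have := (hKB hz).2
    show 0 < z.im
    linarith
  have n0 : ∀ z : ℂ, 0 ≤ F z / z.im ^ 2 := fun z => div_nonneg (h0 z) (sq_nonneg _)
  have hcK : ContinuousOn (fun z : ℂ => F z / z.im ^ 2) K :=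
    (hc.mono hKH).div (Complex.continuous_im.continuousOn.pow 2) fun z hz => by
      have : 0 < z.im := hKH hz
      positivity
  have iK := hcK.integrableOn_compact hK (μ := (volume : Measure ℂ))
  have e1 : ENNReal.ofReal (∫ z in K, F z / z.im ^ 2) = LL F K :=
    ofReal_integral_eq_lintegral_ofReal iK (ae_of_all _ n0)
  have e2 : ENNReal.ofReal (∫ z in DD, F z / z.im ^ 2) = LL F DD :=
    ofReal_integral_eq_lintegral_ofReal hi (ae_of_all _ n0)
  have h1 : LL F K ≤ 12 * LL F DD := (LL_mono hKB).trans (cov hF)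
  rw [← e1, ← e2] at h1
  have e3 : (12 : ℝ≥0∞) = ENNReal.ofReal 12 := by simp
  rw [e3, ← ENNReal.ofReal_mul (by norm_num)] at h1
  exact (ENNReal.ofReal_le_ofReal_iff (mul_nonneg (by norm_num) (integral_nonneg n0))).1 h1

end

end Pool.Agent.R314.JM
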