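import Pool.Agent.R314.JM.Weyl

/-!
# The local Weyl bound for derivatives
-/

set_option autoImplicit false
open MeasureTheory Filter Topology Complex Set
open scoped ContDiff ENNReal

namespace Pool.Agent.R314.JM

open Pool.Agent.W745.RW Pool.Agent.TH294.RS Pool.Agent.Y265.HY

noncomputable section

/-- the general form of the local Weyl bound, for a linear operator `L` of order `k` -/
theorem weylG (k : ℕ) (L : (ℂ → ℝ) → ℂ → ℝ)
    (hL1 : ∀ (m : ℕ) (f : Fin m → ℂ → ℝ), (∀ i, ContDiffOn ℝ ∞ (f i) HH) → ∀ (c : Fin m → ℝ), ∀ z ∈ BB,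
      L (comb c f) z = comb c (fun i => L (f i)) z)
    (hL2 : ∀ (h : ℕ → ℝ), (∀ n, 0 < h n) → ∀ F : ℕ → ℂ → ℝ, (∀ n, ContDiffOn ℝ ∞ (F n) HH) →
      M2C BB h (fun n z => ((F n z : ℝ) : ℂ)) → Tendsto h atTop (𝓝 0) → ∀ K : Set ℂ, IsCompact K → K ⊆ BB →
      ∃ C : ℝ, 0 ≤ C ∧ ∀ᶠ n in atTop, ∀ z ∈ K, h n ^ (k + 1) * |L (F n) z| ≤ C)
    {K : Set ℂ} (hK : IsCompact K) (hKB : K ⊆ BB) :
    ∃ C : ℝ, 0 < C ∧ ∀ T : ℝ, 1 ≤ T → ∀ (m : ℕ) (t : Fin m → ℝ) (f : Fin m → ℂ → ℝ),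
    (∀ i, Form (t i) (f i)) → Orth f → (∀ i, |t i| ≤ T) → ∀ z ∈ K, ∑ i, L (f i) z ^ 2 ≤ C * T ^ (2 * (k + 1)) := by
  by_contra hcon
  push Not at hcon
  have hc2 : ∀ n : ℕ, ∃ T : ℝ, 1 ≤ T ∧ ∃ (m : ℕ) (t : Fin m → ℝ) (f : Fin m → ℂ → ℝ),
    (∀ i, Form (t i) (f i)) ∧ Orth f ∧ (∀ i, |t i| ≤ T) ∧ ∃ z ∈ K, ((n : ℝ) + 1) ^ (2 * (k + 2)) * T ^ (2 * (k + 1)) <
      ∑ i, L (f i) z ^ 2 := fun n => hcon _ (by positivity)
  choose T hT m t f hf ho htT z hz hS using hc2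
  have n1 : ∀ n : ℕ, (0 : ℝ) < (n : ℝ) + 1 := fun n => by positivity
  have T0 : ∀ n, 0 < T n := fun n => lt_of_lt_of_le one_pos (hT n)
  set h : ℕ → ℝ := fun n => 1 / (((n : ℝ) + 1) * T n) with hh
  have h0 : ∀ n, 0 < h n := fun n => by
    have := n1 n; have := T0 n
    simp only [hh]; positivity
  have hlim : Tendsto h atTop (𝓝 0) := by
    refine squeeze_zero (fun n => (h0 n).le) (fun n => ?_) tendsto_one_div_add_atTop_nhds_zero_nat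
    simp only [hh]
    refine one_div_le_one_div_of_le (n1 n) ?_
    nlinarith [n1 n, hT n]
  set S : ℕ → ℝ := fun n => ∑ i, L (f n i) (z n) ^ 2 with hSd
  have S0 : ∀ n, 0 < S n := fun n => lt_trans (by have := n1 n; have := T0 n; positivity) (hS n)
  set c : ∀ n, Fin (m n) → ℝ := fun n i => L (f n i) (z n) / √(S n) with hc
  have c1 : ∀ n, ∑ i, c n i ^ 2 ≤ 1 := fun n => by
    simp only [hc, div_pow, Real.sq_sqrt (S0 n).le]
    rw [← Finset.sum_div, div_self (S0 n).ne']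
  have hl : ∀ n i, h n ^ 2 * lam (t n i) ≤ 2 := by
    intro n i
    have h1 : t n i ^ 2 ≤ T n ^ 2 := by
      rw [← sq_abs (t n i)]; exact pow_le_pow_left₀ (abs_nonneg _) (htT n i) 2
    have h2 : h n ^ 2 * T n ^ 2 ≤ 1 := by
      have : h n * T n ≤ 1 := by
        simp only [hh]
        rw [one_div, mul_inv, mul_assoc, inv_mul_cancel₀ (T0 n).ne', mul_one]
        exact inv_le_one_of_one_le₀ (by linarith [(Nat.cast_nonneg n : (0 : ℝ) ≤ n)])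
      rw [← mul_pow]
      exact pow_le_one₀ (mul_nonneg (h0 n).le (T0 n).le) this
    have h3 : 1 ≤ T n ^ 2 := one_le_pow₀ (hT n)
    unfold lam
    have h4 : h n ^ 2 * (1 / 4 + t n i ^ 2) ≤ h n ^ 2 * (2 * T n ^ 2) :=
      mul_le_mul_of_nonneg_left (by linarith) (sq_nonneg _)
    linarith
  have HM : M2C BB h (fun n z => ((comb (c n) (f n) z : ℝ) : ℂ)) := fun k => cls hf ho hlim hl k c 1 c1
  obtain ⟨C, hC0, hC⟩ := hL2 h h0 (fun n => comb (c n) (f n)) (fun n => comb_sm (hf n) (c n)) HM hlim K hK hKB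
  obtain ⟨N, hN⟩ := eventually_atTop.1 hC
  obtain ⟨N', hN'⟩ := exists_nat_gt C
  have k1 := hN (max N N') (le_max_left _ _) (z (max N N')) (hz (max N N'))
  set n := max N N' with hn
  have e1 : L (comb (c n) (f n)) (z n) = √(S n) := by
    rw [hL1 (m n) (f n) (fun i => (hf n i).sm) (c n) (z n) (hKB (hz n))]
    unfold comb
    simp only [hc]
    have : ∀ i, L (f n i) (z n) / √(S n) * L (f n i) (z n) = L (f n i) (z n) ^ 2 / √(S n) := fun i => by ring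
    simp only [this]
    rw [← Finset.sum_div]
    show S n / √(S n) = √(S n)
    rw [Real.div_sqrt]
  rw [e1, abs_of_nonneg (Real.sqrt_nonneg _)] at k1
  have k2 : ((n : ℝ) + 1) ^ (k + 2) * T n ^ (k + 1) ≤ √(S n) := by
    refine Real.le_sqrt_of_sq_le ?_
    have := (hS n).le
    calc (((n : ℝ) + 1) ^ (k + 2) * T n ^ (k + 1)) ^ 2 =
          ((n : ℝ) + 1) ^ (2 * (k + 2)) * T n ^ (2 * (k + 1)) := by
            rw [mul_pow, ← pow_mul, ← pow_mul, mul_comm 2 (k + 2), mul_comm 2 (k + 1)]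
      _ ≤ _ := this
  have k3 : h n ^ (k + 1) * (((n : ℝ) + 1) ^ (k + 2) * T n ^ (k + 1)) = (n : ℝ) + 1 := by
    simp only [hh]
    have a1 := (n1 n).ne'; have a2 := (T0 n).ne'
    rw [one_div, inv_pow, mul_pow, pow_succ ((n : ℝ) + 1) (k + 1)]
    field_simp
  have k4 := mul_le_mul_of_nonneg_left k2 (pow_nonneg (h0 n).le (k + 1))
  rw [k3] at k4
  have k5 : (N' : ℝ) ≤ n := by exact_mod_cast le_max_right N N'
  linarith

lemma dAt {F : ℂ → ℝ} (hF : ContDiffOn ℝ ∞ F HH) {z : ℂ} (hz : z ∈ HH) : DifferentiableAt ℝ F z :=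
  (hF.contDiffAt (HHop.mem_nhds hz)).differentiableAt (by simp)

/-- zeroth order -/
theorem weyl0 {K : Set ℂ} (hK : IsCompact K) (hKB : K ⊆ BB) : ∃ C : ℝ, 0 < C ∧ ∀ T : ℝ, 1 ≤ T →
    ∀ (m : ℕ) (t : Fin m → ℝ) (f : Fin m → ℂ → ℝ), (∀ i, Form (t i) (f i)) → Orth f → (∀ i, |t i| ≤ T) →
    ∀ z ∈ K, ∑ i, f i z ^ 2 ≤ C * T ^ 2 := by
  refine weylG 0 (fun F => F) (fun m f _ c z _ => rfl) ?_ hK hKB
  intro h hp F hF HM hh K' hK' hK'B
  obtain ⟨C, hC0, hC⟩ := sup_m2 BBop hh HM hK' hK'B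
  refine ⟨C, hC0, hC.mono fun n hn z hz => ?_⟩
  have := hn z hz
  rw [Complex.norm_real, Real.norm_eq_abs, abs_of_pos (hp n)] at this
  simpa using this

/-- first order -/
theorem weyl1 (v : ℂ) (hv : v = 1 ∨ v = I) {K : Set ℂ} (hK : IsCompact K) (hKB : K ⊆ BB) :
    ∃ C : ℝ, 0 < C ∧ ∀ T : ℝ, 1 ≤ T →
    ∀ (m : ℕ) (t : Fin m → ℝ) (f : Fin m → ℂ → ℝ), (∀ i, Form (t i) (f i)) → Orth f → (∀ i, |t i| ≤ T) →
    ∀ z ∈ K, ∑ i, fderiv ℝ (f i) z v ^ 2 ≤ C * T ^ 4 := by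
  refine weylG 1 (fun F z => fderiv ℝ F z v) (fun m f hf c z hz => fd_comb hf c v (BH hz)) ?_ hK hKB
  intro h hp F hF HM hh K' hK' hK'B
  have HM1 : M2C BB h (hd h v (fun n z => ((F n z : ℝ) : ℂ))) := by
    rcases hv with rfl | rfl
    · exact HM.d1
    · exact HM.dI
  obtain ⟨C, hC0, hC⟩ := sup_m2 BBop hh HM1 hK' hK'B
  refine ⟨C, hC0, hC.mono fun n hn z hz => ?_⟩
  have h1 := hn z hz
  have e : hd h v (fun n z => ((F n z : ℝ) : ℂ)) n z = ((h n * fderiv ℝ (F n) z v : ℝ) : ℂ) := by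
    show (h n : ℂ) * fderiv ℝ (fun w => ((F n w : ℝ) : ℂ)) z v = _
    rw [fd_cast (dAt (hF n) (BH (hK'B hz)))]
    push_cast; ring
  rw [e, Complex.norm_real, Real.norm_eq_abs, abs_mul, abs_of_pos (hp n)] at h1
  calc h n ^ (1 + 1) * |fderiv ℝ (F n) z v| = h n * (h n * |fderiv ℝ (F n) z v|) := by ring
    _ ≤ C := h1

/-- mixed second order -/
theorem weyl2 {K : Set ℂ} (hK : IsCompact K) (hKB : K ⊆ BB) :
    ∃ C : ℝ, 0 < C ∧ ∀ T : ℝ, 1 ≤ T →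
    ∀ (m : ℕ) (t : Fin m → ℝ) (f : Fin m → ℂ → ℝ), (∀ i, Form (t i) (f i)) → Orth f → (∀ i, |t i| ≤ T) →
    ∀ z ∈ K, ∑ i, fderiv ℝ (fun w => fderiv ℝ (f i) w 1) z I ^ 2 ≤ C * T ^ 6 := by
  refine weylG 2 (fun F z => fderiv ℝ (fun w => fderiv ℝ F w 1) z I) (fun m f hf c z hz => ?_) ?_ hK hKB
  · have e : (fun w => fderiv ℝ (comb c f) w 1) =ᶠ[𝓝 z] comb c (fun i z => fderiv ℝ (f i) z 1) := by
      filter_upwards [HHop.mem_nhds (BH hz)] with w hw using fd_comb hf c 1 hw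
    show fderiv ℝ (fun w => fderiv ℝ (comb c f) w 1) z I = _
    rw [e.fderiv_eq]
    exact fd_comb (fun i => Pool.Agent.W249.RW.cdd HHop (hf i) 1) c I (BH hz)
  intro h hp F hF HM hh K' hK' hK'B
  obtain ⟨C, hC0, hC⟩ := sup_m2 BBop hh HM.d1.dI hK' hK'B
  refine ⟨C, hC0, hC.mono fun n hn z hz => ?_⟩
  have h1 := hn z hz
  have hzH := BH (hK'B hz)
  have c1 : ContDiffOn ℝ ∞ (fun w => fderiv ℝ (F n) w 1) HH := Pool.Agent.W249.RW.cdd HHop (hF n) 1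
  have e : hd h I (hd h 1 (fun n z => ((F n z : ℝ) : ℂ))) n z =
      ((h n * (h n * fderiv ℝ (fun w => fderiv ℝ (F n) w 1) z I) : ℝ) : ℂ) := by
    have e1 : hd h 1 (fun n z => ((F n z : ℝ) : ℂ)) n =ᶠ[𝓝 z]
        fun w => ((h n * fderiv ℝ (F n) w 1 : ℝ) : ℂ) := by
      filter_upwards [HHop.mem_nhds hzH] with w hw
      show (h n : ℂ) * fderiv ℝ (fun w => ((F n w : ℝ) : ℂ)) w 1 = _
      rw [fd_cast (dAt (hF n) hw)]
      push_cast; ring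
    show (h n : ℂ) * fderiv ℝ (hd h 1 (fun n z => ((F n z : ℝ) : ℂ)) n) z I = _
    rw [e1.fderiv_eq]
    have e2 := fd_cast (F := fun w => h n * fderiv ℝ (F n) w 1) (z := z)
      ((dAt c1 hzH).const_mul (h n)) I
    rw [e2, fderiv_const_mul (dAt c1 hzH)]
    simp only [ContinuousLinearMap.smul_apply, smul_eq_mul]
    push_cast; rfl
  rw [e, Complex.norm_real, Real.norm_eq_abs, abs_mul, abs_mul, abs_of_pos (hp n)] at h1
  calc h n ^ (2 + 1) * |fderiv ℝ (fun w => fderiv ℝ (F n) w 1) z I| =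
        h n * (h n * (h n * |fderiv ℝ (fun w => fderiv ℝ (F n) w 1) z I|)) := by ring
    _ ≤ C := h1

end

end Pool.Agent.R314.JM
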