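import Pool.Agent.R314.JM.Weyl

/-!
# Counting exceptional tuples of automorphic eigenfunctions
-/

set_option autoImplicit false
open MeasureTheory Filter Topology Complex Set
open scoped ContDiff ENNReal

namespace Pool.Agent.R314.JM

open Pool.Agent.W745.RW Pool.Agent.TH294.RS Pool.Agent.Y265.HY

noncomputable section

/-- Bessel's inequality -/
lemma bessel {α : Type*} [MeasurableSpace α] (ν : Measure α) {m : ℕ} (e : Fin m → α → ℝ) {c : ℝ}
    (hc : 0 < c) (he : ∀ i j, Integrable (fun x => e i x * e j x) ν)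
    (ho : ∀ i j, ∫ x, e i x * e j x ∂ν = if i = j then c else 0) (p : α → ℝ)
    (hp : Integrable (fun x => p x ^ 2) ν) (hpe : ∀ j, Integrable (fun x => p x * e j x) ν) :
    ∑ j, (∫ x, p x * e j x ∂ν) ^ 2 ≤ c * ∫ x, p x ^ 2 ∂ν := by
  set A : Fin m → ℝ := fun j => ∫ x, p x * e j x ∂ν with hA
  have h0 : 0 ≤ ∫ x, (c * p x - ∑ j, A j * e j x) ^ 2 ∂ν := integral_nonneg fun x => sq_nonneg _
  have e1 : ∀ x, (c * p x - ∑ j, A j * e j x) ^ 2 = (c ^ 2 * p x ^ 2 -
      ∑ j, 2 * c * A j * (p x * e j x)) + ∑ i, ∑ j, A i * A j * (e i x * e j x) := by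
    intro x
    have k1 : (∑ j, A j * e j x) ^ 2 = ∑ i, ∑ j, A i * A j * (e i x * e j x) := by
      rw [sq, Finset.sum_mul_sum]
      exact Finset.sum_congr rfl fun i _ => Finset.sum_congr rfl fun j _ => by ring
    have k2 : ∑ j, 2 * c * A j * (p x * e j x) = 2 * (c * p x) * ∑ j, A j * e j x := by
      rw [Finset.mul_sum]
      exact Finset.sum_congr rfl fun j _ => by ring
    rw [k2, ← k1]; ring
  have i1 : Integrable (fun x => c ^ 2 * p x ^ 2) ν := hp.const_mul _
  have i2 : Integrable (fun x => ∑ j, 2 * c * A j * (p x * e j x)) ν :=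
    integrable_finset_sum _ fun j _ => (hpe j).const_mul _
  have i3 : Integrable (fun x => ∑ i, ∑ j, A i * A j * (e i x * e j x)) ν :=
    integrable_finset_sum _ fun i _ => integrable_finset_sum _ fun j _ => (he i j).const_mul _
  have i12 : Integrable (fun x => c ^ 2 * p x ^ 2 - ∑ j, 2 * c * A j * (p x * e j x)) ν := i1.sub i2
  simp only [e1] at h0
  rw [integral_add i12 i3, integral_sub i1 i2, integral_const_mul,
    integral_finset_sum _ fun j _ => (hpe j).const_mul _,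
    integral_finset_sum _ fun i _ => integrable_finset_sum _ fun j _ => (he i j).const_mul _] at h0
  have e2 : ∑ j, ∫ x, 2 * c * A j * (p x * e j x) ∂ν = 2 * c * ∑ j, A j ^ 2 := by
    rw [Finset.mul_sum]
    refine Finset.sum_congr rfl fun j _ => ?_
    rw [integral_const_mul]
    show 2 * c * A j * A j = _
    ring
  have e3 : ∑ i, ∫ x, ∑ j, A i * A j * (e i x * e j x) ∂ν = c * ∑ j, A j ^ 2 := by
    rw [Finset.mul_sum]
    refine Finset.sum_congr rfl fun i _ => ?_
    rw [integral_finset_sum _ fun j _ => (he i j).const_mul _, Finset.sum_eq_single i]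
    · rw [integral_const_mul, ho i i, if_pos rfl]; ring
    · intro j _ hj
      rw [integral_const_mul, ho i j, if_neg (Ne.symm hj), mul_zero]
    · intro h; exact absurd (Finset.mem_univ i) h
  rw [e2, e3] at h0
  have h1 : c * ∑ j, A j ^ 2 ≤ c * (c * ∫ x, p x ^ 2 ∂ν) := by linarith
  exact le_of_mul_le_mul_left h1 hc

lemma KKD (Y : ℝ) : KK Y ⊆ DD := fun z hz => ⟨BH (KKB Y hz), hz.1, hz.2.1⟩

lemma notKK {Y : ℝ} {z : ℂ} (hz : z ∈ DD \ KK Y) : Y < z.im := by
  by_contra h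
  exact hz.2 ⟨hz.1.2.1, hz.1.2.2, hz.1.1.le, not_lt.1 h⟩

variable {ι : Type} [Fintype ι] [DecidableEq ι]

/-- the integral of the problem -/
def JJ (ψ : ℂ → ℝ) (a : ι → ℕ) {m : ℕ} (f : Fin m → ℂ → ℝ) (j : ι → Fin m) : ℝ :=
  ∫ z in DD, ψ z * (∏ i, f (j i) z ^ a i) / z.im ^ 2

/-- the second moment over all tuples -/
theorem second (a : ι → ℕ) (i₀ : ι) (ha0 : a i₀ = 1) (hpos : ∀ i, 0 < a i) (Y : ℝ) :
    ∃ C : ℝ, 0 < C ∧ ∀ ψ : ℂ → ℝ, ContinuousOn ψ HH → (∀ z ∈ KK Y, |ψ z| ≤ 1) →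
    (∀ z ∈ DD, Y < z.im → ψ z = 0) → ∀ T : ℝ, 1 ≤ T → ∀ (m : ℕ) (t : Fin m → ℝ) (f : Fin m → ℂ → ℝ),
    (∀ i, Form (t i) (f i)) → Orth f → (∀ i, |t i| ≤ T) → ∀ A : ℝ, 0 ≤ A →
    (∀ i, ∀ z ∈ KK Y, f i z ^ 2 ≤ A) →
    ∑ j : ι → Fin m, JJ ψ a f j ^ 2 ≤ C * A ^ (∑ i, (a i - 1)) * (T ^ 2) ^ (Fintype.card ι - 1) := by
  classical
  obtain ⟨C₁, hC₁, hW⟩ := weyl Y
  have hpi := Real.pi_pos
  set k := Fintype.card ι - 1 with hk
  set V : ℝ := ∫ z in KK Y, (1 : ℝ) / z.im ^ 2 with hV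
  have hV0 : 0 ≤ V := integral_nonneg fun z => by positivity
  refine ⟨Real.pi / 3 * (V + 1) * C₁ ^ k, by positivity, ?_⟩
  intro ψ hψ hψ1 hψ0 T hT m t f hf ho ht A hA0 hA
  -- the other factors
  set P : ({i // i ≠ i₀} → Fin m) → ℂ → ℝ := fun j' z => ψ z * ∏ i : {i // i ≠ i₀}, f (j' i) z ^ a i with hP
  have cP : ∀ j', ContinuousOn (P j') HH := fun j' =>
    hψ.mul (continuousOn_finset_prod _ fun i _ => ((hf (j' i)).sm.continuousOn.pow _))
  have P0 : ∀ j', ∀ z ∈ DD \ KK Y, P j' z = 0 := fun j' z hz => by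
    simp only [hP]; rw [hψ0 z hz.1 (notKK hz), zero_mul]
  have KH : KK Y ⊆ HH := (KKB Y).trans BH
  have iP : ∀ j', IntegrableOn (fun z => P j' z ^ 2 / z.im ^ 2) DD := fun j' => by
    refine IntegrableOn.of_forall_diff_eq_zero
      (((wcont ((cP j').pow 2)).mono KH).integrableOn_compact (KKc Y)) mS fun z hz => ?_
    rw [P0 j' z hz]; simp
  -- splitting the tuple
  have hsplit : ∀ j : ι → Fin m, JJ ψ a f j =
      ∫ z in DD, P (fun i => j i) z * f (j i₀) z / z.im ^ 2 := by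
    intro j
    unfold JJ
    congr 1
    funext z
    have e1 : ∏ i, f (j i) z ^ a i = f (j i₀) z ^ a i₀ * ∏ i ∈ Finset.univ.erase i₀, f (j i) z ^ a i :=
      (Finset.mul_prod_erase Finset.univ (fun i => f (j i) z ^ a i) (Finset.mem_univ i₀)).symm
    have e2 : ∏ i ∈ Finset.univ.erase i₀, f (j i) z ^ a i = ∏ i : {i // i ≠ i₀}, f (j i) z ^ a i :=
      Finset.prod_subtype _ (fun x => by simp) _
    rw [e1, e2, ha0, pow_one]
    simp only [hP]; ring
  have e1 : ∑ j : ι → Fin m, JJ ψ a f j ^ 2 =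
      ∑ j' : {i // i ≠ i₀} → Fin m, ∑ x : Fin m, (∫ z in DD, P j' z * f x z / z.im ^ 2) ^ 2 := by
    rw [← Finset.sum_comm, ← Fintype.sum_prod_type']
    exact Fintype.sum_equiv (Equiv.funSplitAt i₀ (Fin m)) _
      (fun p => (∫ z in DD, P p.2 z * f p.1 z / z.im ^ 2) ^ 2) fun j => by rw [hsplit j]; rfl
  have hB : ∀ j', ∑ x : Fin m, (∫ z in DD, P j' z * f x z / z.im ^ 2) ^ 2 ≤
      Real.pi / 3 * ∫ z in DD, P j' z ^ 2 / z.im ^ 2 := by
    intro j'
    have hne : ∀ z ∈ DD, z.im ≠ 0 := fun z hz => (hz.1 : 0 < z.im).ne'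
    have w1 : ∀ (g h : ℂ → ℝ), (fun z : ℂ => g z / z.im * (h z / z.im)) = fun z => g z * h z / z.im ^ 2 :=
      fun g h => by funext z; rw [div_mul_div_comm, sq]
    have w2 : (fun z : ℂ => (P j' z / z.im) ^ 2) = fun z => P j' z ^ 2 / z.im ^ 2 := by
      funext z; rw [div_pow]
    have b := bessel (volume.restrict DD) (fun x z => f x z / z.im) (c := Real.pi / 3) (by positivity)
      (fun i j => by
        simp only [w1]
        exact (hf i).mul (hf j)) (fun i j => by
        simp only [w1]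
        exact ho i j) (fun z => P j' z / z.im) (by simp only [w2]; exact iP j') (fun x => by
        simp only [w1]
        exact int_mul' (cP j') (hf x).sm.continuousOn (iP j') (hf x).int)
    simp only [w1, w2] at b
    exact b
  rw [e1]
  refine (Finset.sum_le_sum fun j' _ => hB j').trans ?_
  rw [← Finset.mul_sum]
  have e2 : ∀ j', ∫ z in DD, P j' z ^ 2 / z.im ^ 2 = ∫ z in KK Y, P j' z ^ 2 / z.im ^ 2 := fun j' =>
    setIntegral_eq_of_subset_of_forall_diff_eq_zero mS (KKD Y) fun z hz => by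
      rw [P0 j' z hz]; simp
  simp only [e2]
  rw [← integral_finset_sum _ fun j' _ => (iP j').mono_set (KKD Y)]
  -- the pointwise bound
  set e := ∑ i, (a i - 1) with he
  have hcard : Fintype.card {i // i ≠ i₀} = k := by
    rw [Fintype.card_subtype_compl, Fintype.card_subtype_eq]
  have hpt : ∀ z ∈ KK Y, ∑ j' : {i // i ≠ i₀} → Fin m, P j' z ^ 2 / z.im ^ 2 ≤
      (A ^ e * (C₁ * T ^ 2) ^ k) * (1 / z.im ^ 2) := by
    intro z hz
    rw [← Finset.sum_div, div_eq_mul_one_div]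
    have hz0 : 0 < z.im := KH hz
    refine mul_le_mul_of_nonneg_right ?_ (by positivity)
    have s1 : ∀ j' : {i // i ≠ i₀} → Fin m, P j' z ^ 2 ≤ ∏ i : {i // i ≠ i₀}, (f (j' i) z ^ 2) ^ a i := by
      intro j'
      simp only [hP]
      rw [mul_pow, ← Finset.prod_pow]
      have : ∏ i : {i // i ≠ i₀}, (f (j' i) z ^ a i) ^ 2 = ∏ i : {i // i ≠ i₀}, (f (j' i) z ^ 2) ^ a i :=
        Finset.prod_congr rfl fun i _ => by rw [← pow_mul, ← pow_mul, mul_comm]
      rw [this]
      have h1 : ψ z ^ 2 ≤ 1 := by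
        rw [← sq_abs]; exact pow_le_one₀ (abs_nonneg _) (hψ1 z hz)
      have h2 : 0 ≤ ∏ i : {i // i ≠ i₀}, (f (j' i) z ^ 2) ^ a i :=
        Finset.prod_nonneg fun i _ => by positivity
      nlinarith
    refine (Finset.sum_le_sum fun j' _ => s1 j').trans ?_
    have s2 : ∑ j' : {i // i ≠ i₀} → Fin m, ∏ i : {i // i ≠ i₀}, (f (j' i) z ^ 2) ^ a i =
        ∏ i : {i // i ≠ i₀}, ∑ x : Fin m, (f x z ^ 2) ^ a i := by
      rw [Finset.prod_univ_sum, Fintype.piFinset_univ]
    rw [s2]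
    have s3 : ∀ i : {i // i ≠ i₀}, ∑ x : Fin m, (f x z ^ 2) ^ a i ≤ A ^ (a i - 1) * (C₁ * T ^ 2) := by
      intro i
      calc ∑ x : Fin m, (f x z ^ 2) ^ a i ≤ ∑ x : Fin m, A ^ (a i - 1) * f x z ^ 2 := by
            refine Finset.sum_le_sum fun x _ => ?_
            have h1 : (f x z ^ 2) ^ a i = (f x z ^ 2) ^ (a i - 1) * f x z ^ 2 := by
              rw [← pow_succ, Nat.sub_add_cancel (hpos i)]
            rw [h1]
            exact mul_le_mul_of_nonneg_right (pow_le_pow_left₀ (sq_nonneg _) (hA x z hz) _) (sq_nonneg _)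
        _ = A ^ (a i - 1) * ∑ x : Fin m, f x z ^ 2 := by rw [Finset.mul_sum]
        _ ≤ A ^ (a i - 1) * (C₁ * T ^ 2) :=
            mul_le_mul_of_nonneg_left (hW T hT m t f hf ho ht z hz) (pow_nonneg hA0 _)
    refine (Finset.prod_le_prod (fun i _ => Finset.sum_nonneg fun x _ => by positivity) fun i _ => s3 i).trans ?_
    rw [Finset.prod_mul_distrib, Finset.prod_const, Finset.card_univ, hcard, Finset.prod_pow_eq_pow_sum]
    have s4 : ∑ i : {i // i ≠ i₀}, (a i - 1) = e := by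
      rw [he, ← Finset.add_sum_erase Finset.univ (fun i => a i - 1) (Finset.mem_univ i₀), ha0,
        Nat.sub_self, zero_add]
      exact (Finset.sum_subtype _ (fun x => by simp) (fun i => a i - 1)).symm
    rw [s4]
  have i5 : IntegrableOn (fun z : ℂ => (1 : ℝ) / z.im ^ 2) (KK Y) :=
    ((wcont continuousOn_const).mono KH).integrableOn_compact (KKc Y)
  have h5 : ∫ z in KK Y, ∑ j' : {i // i ≠ i₀} → Fin m, P j' z ^ 2 / z.im ^ 2 ≤
      (A ^ e * (C₁ * T ^ 2) ^ k) * V := by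
    rw [hV, ← integral_const_mul]
    refine setIntegral_mono_on (integrable_finset_sum _ fun j' _ => (iP j').mono_set (KKD Y))
      (i5.const_mul _) (KKc Y).measurableSet hpt
  have h6 := mul_le_mul_of_nonneg_left h5 (by positivity : 0 ≤ Real.pi / 3)
  refine h6.trans ?_
  have h7 : 0 ≤ A ^ e * (C₁ * T ^ 2) ^ k := by positivity
  calc Real.pi / 3 * (A ^ e * (C₁ * T ^ 2) ^ k * V) ≤ Real.pi / 3 * (A ^ e * (C₁ * T ^ 2) ^ k * (V + 1)) := by
        gcongr
        linarith
    _ = Real.pi / 3 * (V + 1) * C₁ ^ k * A ^ e * (T ^ 2) ^ k := by rw [mul_pow]; ring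

/-- Hörmander's bound -/
theorem hor (Y : ℝ) : ∃ C : ℝ, 0 < C ∧ ∀ T : ℝ, 1 ≤ T → ∀ (t : ℝ) (f : ℂ → ℝ), Form t f →
    ∫ z in DD, f z ^ 2 / z.im ^ 2 = Real.pi / 3 → |t| ≤ T → ∀ z ∈ KK Y, f z ^ 2 ≤ C * T := by
  obtain ⟨C₁, hC₁, hW⟩ := weyl Y
  have hpi := Real.pi_pos
  obtain ⟨W, hW1, hWY⟩ : ∃ W : ℝ, 1 ≤ W ∧ Y ≤ W := ⟨max Y 1, le_max_right _ _, le_max_left _ _⟩
  have W0 : 0 < W := by linarith
  refine ⟨C₁ * (50 * W) ^ 2 + 16 / Real.pi * (300 * W) * (2 * ((W + 1) ^ 2 * (12 * (Real.pi / 3)))),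
    by positivity, ?_⟩
  intro T hT t f hf hn ht z hz
  have T0 : 0 < T := by linarith
  have n2 : 0 ≤ 16 / Real.pi * (300 * W) * (2 * ((W + 1) ^ 2 * (12 * (Real.pi / 3)))) := by positivity
  have n1 : 0 ≤ C₁ * (50 * W) ^ 2 := by positivity
  by_cases hsmall : |t| ≤ 50 * W
  · have h1 := hW (50 * W) (by linarith) 1 (fun _ => t) (fun _ => f) (fun _ => hf) (fun i j => by
      have : i = j := Subsingleton.elim i j
      rw [if_pos this, ← hn]
      congr 1
      funext z
      ring) (fun _ => hsmall) z hz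
    simp only [Finset.univ_unique, Finset.sum_const, Finset.card_singleton, one_smul] at h1
    refine h1.trans ?_
    nlinarith
  · rw [not_le] at hsmall
    have hzB := KKB Y hz
    have hzH : 0 < z.im := BH hzB
    have hzi : 4 / 5 < z.im := hzB.2
    have hzY : z.im ≤ W := hz.2.2.2.trans hWY
    have hlam0 : 0 < lam t := by unfold lam; positivity
    set R : ℝ := 1 / (100 * W) with hR
    have R0 : 0 < R := by positivity
    have RW : R * W = 1 / 100 := by rw [hR]; field_simp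
    have Rle : R ≤ 1 / 100 := by
      rw [hR]
      exact one_div_le_one_div_of_le (by norm_num) (by linarith)
    have hlb : 2500 * W ^ 2 ≤ lam t := by
      unfold lam
      have : (50 * W) ^ 2 ≤ t ^ 2 := by
        rw [← sq_abs t]; exact pow_le_pow_left₀ (by positivity) hsmall.le 2
      nlinarith
    have rim : z.im * R ≤ 1 / 100 := by nlinarith
    have key := disc_bound HHop hf.sm hlam0 (fun w hw => by have := hf.eq w hw; linarith) (p := z) hzH R0
      (by linarith) (fun w hw => by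
        rw [Metric.mem_closedBall, dist_eq_norm] at hw
        have h1 : |(w - z).im| ≤ 6 * z.im * R := (Complex.abs_im_le_norm _).trans hw
        rw [sub_im] at h1
        have := (abs_le.1 h1).1
        show 0 < w.im
        nlinarith) (by
        have : R ^ 2 * W ^ 2 = (1 / 100) ^ 2 := by rw [← mul_pow, RW]
        nlinarith [sq_nonneg R, mul_le_mul_of_nonneg_right hlb (sq_nonneg R)])
    -- the compact disc
    set r : ℝ := 3 * z.im * R with hr
    have r0 : 0 < r := by positivity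
    have rle : r ≤ 3 / 100 := by rw [hr]; nlinarith
    set K2 : Set ℂ := Metric.closedBall z r with hK2
    have hK2B : K2 ⊆ BB := by
      intro w hw
      rw [hK2, Metric.mem_closedBall, dist_eq_norm] at hw
      have h1 : |(w - z).im| ≤ r := (Complex.abs_im_le_norm _).trans hw
      have h2 : |(w - z).re| ≤ r := (Complex.abs_re_le_norm _).trans hw
      rw [sub_im] at h1
      rw [sub_re] at h2
      obtain ⟨a1, a2⟩ := abs_le.1 h1
      obtain ⟨b1, b2⟩ := abs_le.1 h2
      obtain ⟨c1, c2⟩ := abs_le.1 hz.1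
      have hzz : 3 / 4 ≤ z.im ^ 2 := by
        have h4 : 1 ≤ normSq z := by
          rw [normSq_eq_norm_sq]; nlinarith [hz.2.1, norm_nonneg z]
        rw [normSq_apply] at h4
        nlinarith
      have hz86 : 86 / 100 ≤ z.im := by nlinarith
      refine ⟨?_, ?_⟩
      · show |w.re| < 1
        rw [abs_lt]; constructor <;> linarith
      · show 4 / 5 < w.im
        linarith
    have hK2c : IsCompact K2 := isCompact_closedBall _ _
    have hK2H : K2 ⊆ HH := hK2B.trans BH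
    have cF : ContinuousOn (fun z => f z ^ 2) HH := hf.sm.continuousOn.pow 2
    have h1 := covK (F := fun z => f z ^ 2) (fun w hw => by
      show f (w + 1) ^ 2 = f w ^ 2 ∧ f (-w⁻¹) ^ 2 = f w ^ 2
      rw [(hf.inv w hw).1, (hf.inv w hw).2]; exact ⟨rfl, rfl⟩) cF (fun _ => sq_nonneg _) hf.int hK2c hK2B
    rw [hn] at h1
    have h2 : ∫ w in Metric.ball z r, f w ^ 2 ≤ (W + 1) ^ 2 * ∫ w in K2, f w ^ 2 / w.im ^ 2 := by
      have h3 : ∫ w in Metric.ball z r, f w ^ 2 ≤ ∫ w in K2, f w ^ 2 :=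
        setIntegral_mono_set ((cF.mono hK2H).integrableOn_compact hK2c) (ae_of_all _ fun _ => sq_nonneg _)
          (Metric.ball_subset_closedBall).eventuallyLE
      refine h3.trans ?_
      rw [← integral_const_mul]
      refine setIntegral_mono_on ((cF.mono hK2H).integrableOn_compact hK2c)
        ((continuousOn_const.mul ((wcont cF).mono hK2H)).integrableOn_compact hK2c) hK2c.measurableSet
        fun w hw => ?_
      have hw' : 0 < w.im := hK2H hw
      have hy : w.im ≤ W + 1 := by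
        rw [hK2, Metric.mem_closedBall, dist_eq_norm] at hw
        have h1 : |(w - z).im| ≤ r := (Complex.abs_im_le_norm _).trans hw
        rw [sub_im] at h1
        have := (abs_le.1 h1).2
        linarith
      rw [mul_div_assoc', le_div_iff₀ (by positivity), mul_comm]
      exact mul_le_mul_of_nonneg_right (pow_le_pow_left₀ hw'.le hy 2) (sq_nonneg _)
    have h3 : ∫ w in Metric.ball z r, f w ^ 2 ≤ (W + 1) ^ 2 * (12 * (Real.pi / 3)) :=
      h2.trans (mul_le_mul_of_nonneg_left h1 (by positivity))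
    have h4 : (z.im ^ 2)⁻¹ ≤ 2 := by
      rw [inv_le_comm₀ (by positivity) (by norm_num)]
      nlinarith
    have h5 : √(4 * lam t) ≤ 3 * T := by
      rw [Real.sqrt_le_left (by positivity)]
      unfold lam
      have : t ^ 2 ≤ T ^ 2 := by
        rw [← sq_abs t]; exact pow_le_pow_left₀ (abs_nonneg _) ht 2
      nlinarith
    have h6 : √(4 * lam t) / R ≤ 300 * W * T := by
      rw [div_le_iff₀ R0]
      calc √(4 * lam t) ≤ 3 * T := h5
        _ = 300 * W * T * R := by
            have : W * R = 1 / 100 := by rw [mul_comm]; exact RW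
            linear_combination (-300 * T) * this
    have i0 : 0 ≤ ∫ w in Metric.ball z r, f w ^ 2 := integral_nonneg fun _ => sq_nonneg _
    have h7 : (z.im ^ 2)⁻¹ * ∫ w in Metric.ball z r, f w ^ 2 ≤ 2 * ((W + 1) ^ 2 * (12 * (Real.pi / 3))) :=
      mul_le_mul h4 h3 i0 (by norm_num)
    have i1 : 0 ≤ (z.im ^ 2)⁻¹ * ∫ w in Metric.ball z r, f w ^ 2 := mul_nonneg (by positivity) i0
    calc f z ^ 2 ≤ 16 / Real.pi * (√(4 * lam t) / R) * ((z.im ^ 2)⁻¹ * ∫ w in Metric.ball z r, f w ^ 2) := key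
      _ ≤ 16 / Real.pi * (300 * W * T) * (2 * ((W + 1) ^ 2 * (12 * (Real.pi / 3)))) := by
          refine mul_le_mul (mul_le_mul_of_nonneg_left h6 (by positivity)) h7 i1 (by positivity)
      _ = 16 / Real.pi * (300 * W) * (2 * ((W + 1) ^ 2 * (12 * (Real.pi / 3)))) * T := by ring
      _ ≤ _ := by nlinarith

end

end Pool.Agent.R314.JM
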