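import Pool.Agent.R314.JM.Sup

/-!
# Families normalised by mean square integral one
-/

set_option autoImplicit false
open MeasureTheory Filter Topology Complex Set
open scoped ContDiff ENNReal

namespace Pool.Agent.R314.JM

open Pool.Agent.W745.RW

noncomputable section

lemma lap_smul {f : ℂ → ℝ} (hf : ContDiffOn ℝ ∞ f HH) (a : ℝ) {z : ℂ} (hz : z ∈ HH) :
    lap (fun z => a * f z) z = a * lap f z := by
  have e : (fun z => a * f z) = comb (fun _ : Fin 1 => a) (fun _ => f) := by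
    funext z; simp [comb]
  rw [e, lap_comb (fun _ => hf) _ hz]
  simp [comb]

lemma Form.smul {t : ℝ} {f : ℂ → ℝ} (hf : Form t f) (a : ℝ) : Form t (fun z => a * f z) := by
  refine ⟨contDiffOn_const.mul hf.sm, fun z hz => ?_, fun z hz => ?_, ?_⟩
  · rw [lap_smul hf.sm a hz]
    have := hf.eq z hz
    linear_combination a * this
  · rw [(hf.inv z hz).1, (hf.inv z hz).2]; exact ⟨rfl, rfl⟩
  · have e : (fun z : ℂ => (a * f z) ^ 2 / z.im ^ 2) = fun z => a ^ 2 * (f z ^ 2 / z.im ^ 2) := by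
      funext z; ring
    rw [e]; exact hf.int.const_mul _

/-- `sup_sum` for families normalised by integral one -/
theorem sup_sum' (Y : ℝ) : ∃ C : ℝ, 0 < C ∧ ∀ T : ℝ, 1 ≤ T →
    ∀ (m : ℕ) (t : Fin m → ℝ) (f : Fin m → ℂ → ℝ), (∀ i, Form (t i) (f i)) →
    (∀ i j, ∫ z in DD, f i z * f j z / z.im ^ 2 = if i = j then 1 else 0) → (∀ i, |t i| ≤ T) →
    ∀ (N : ℕ) (c : Fin N → ℂ), (∀ k, c k ∈ KK Y) → ∀ w : Fin m → ℂ,
    (∀ i, ∃ k, w i ∈ Metric.ball (c k) (1 / (100 * T))) → ∑ i, f i (w i) ^ 2 ≤ C * N * T ^ 2 := by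
  obtain ⟨C, hC, h⟩ := sup_sum Y
  have hpi := Real.pi_pos
  refine ⟨3 / Real.pi * C, by positivity, ?_⟩
  intro T hT m t f hf ho ht N c hc w hw
  set a : ℝ := √(Real.pi / 3) with ha
  have a2 : a ^ 2 = Real.pi / 3 := Real.sq_sqrt (by positivity)
  have k := h T hT m t (fun i z => a * f i z) (fun i => (hf i).smul a) (fun i j => by
    have e : (fun z : ℂ => a * f i z * (a * f j z) / z.im ^ 2) = fun z => a ^ 2 * (f i z * f j z / z.im ^ 2) := by
      funext z; ring
    show ∫ z in DD, a * f i z * (a * f j z) / z.im ^ 2 = _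
    rw [e, integral_const_mul, ho i j, a2]
    split_ifs <;> ring) ht N c hc w hw
  have e : ∑ i, (a * f i (w i)) ^ 2 = Real.pi / 3 * ∑ i, f i (w i) ^ 2 := by
    rw [Finset.mul_sum]
    exact Finset.sum_congr rfl fun i _ => by rw [mul_pow, a2]
  rw [e] at k
  calc ∑ i, f i (w i) ^ 2 = 3 / Real.pi * (Real.pi / 3 * ∑ i, f i (w i) ^ 2) := by field_simp
    _ ≤ 3 / Real.pi * (C * N * T ^ 2) := mul_le_mul_of_nonneg_left k (by positivity)
    _ = _ := by ring

end

end Pool.Agent.R314.JM
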