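import Pool.Agent.TH421.DF.Sob
import Pool.Agent.R314.JM.Main
import Pool.Agent.R314.JM.Der

/-!
# Suprema over small discs
-/

set_option autoImplicit false
open MeasureTheory Filter Topology Complex Set
open scoped ContDiff ENNReal

namespace Pool.Agent.R314.JM

open Pool.Agent.W745.RW Pool.Agent.TH294.RS Pool.Agent.Y265.HY Pool.Agent.W249.RW

noncomputable section

/-- derivative of a scaled function -/
lemma fd_scale {g : ℂ → ℝ} (hg : Differentiable ℝ g) (h : ℝ) (c z v : ℂ) :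
    fderiv ℝ (fun z => g (h⁻¹ • (z - c))) z v = h⁻¹ * fderiv ℝ g (h⁻¹ • (z - c)) v := by
  have hd : HasFDerivAt (fun z => g (h⁻¹ • (z - c)))
      ((fderiv ℝ g (h⁻¹ • (z - c))).comp (h⁻¹ • ContinuousLinearMap.id ℝ ℂ)) z := by
    have h1 : HasFDerivAt (fun z : ℂ => h⁻¹ • (z - c)) (h⁻¹ • ContinuousLinearMap.id ℝ ℂ) z :=
      ((hasFDerivAt_id z).sub_const c).const_smul h⁻¹
    exact (hg _).hasFDerivAt.comp z h1
  rw [hd.fderiv]
  simp

/-- bounds for the derivatives of the cutoff -/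
lemma cut_bd : ∃ M : ℝ, 1 ≤ M ∧ ∀ ρ : ℝ, 0 < ρ → ∀ c z : ℂ, |cut b1 c ρ z| ≤ M ∧
    |fderiv ℝ (cut b1 c ρ) z 1| ≤ M / ρ ∧ |fderiv ℝ (cut b1 c ρ) z I| ≤ M / ρ ∧
    |fderiv ℝ (fun w => fderiv ℝ (cut b1 c ρ) w 1) z I| ≤ M / ρ ^ 2 := by
  have hcd : ContDiff ℝ ∞ (b1 : ℂ → ℝ) := b1.contDiff
  have c1 : ContDiff ℝ ∞ (fun w => fderiv ℝ (b1 : ℂ → ℝ) w 1) :=
    (hcd.fderiv_right (m := ∞) (by simp)).clm_apply contDiff_const
  have s1 : HasCompactSupport (fun w => fderiv ℝ (b1 : ℂ → ℝ) w 1) :=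
    b1.hasCompactSupport.fderiv_apply (𝕜 := ℝ) 1
  obtain ⟨C, hC⟩ := (hcd.continuous_fderiv (by simp)).bounded_above_of_compact_support
    (b1.hasCompactSupport.fderiv (𝕜 := ℝ))
  obtain ⟨C', hC'⟩ := (c1.continuous_fderiv (by simp)).bounded_above_of_compact_support
    (s1.fderiv (𝕜 := ℝ))
  refine ⟨1 + |C| + |C'|, by linarith [abs_nonneg C, abs_nonneg C'], ?_⟩
  intro ρ hρ c z
  have f1 : ∀ v : ℂ, ‖v‖ = 1 → |fderiv ℝ (cut b1 c ρ) z v| ≤ (1 + |C| + |C'|) / ρ := by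
    intro v hv
    have e1 : fderiv ℝ (cut b1 c ρ) z v = ρ⁻¹ * fderiv ℝ (b1 : ℂ → ℝ) (ρ⁻¹ • (z - c)) v :=
      fd_scale (hcd.differentiable (by simp)) ρ c z v
    rw [e1, abs_mul, abs_of_pos (inv_pos.2 hρ), inv_mul_eq_div]
    refine div_le_div_of_nonneg_right ?_ hρ.le
    have h1 := (fderiv ℝ (b1 : ℂ → ℝ) (ρ⁻¹ • (z - c))).le_opNorm v
    rw [hv, mul_one, Real.norm_eq_abs] at h1
    have := hC (ρ⁻¹ • (z - c))
    linarith [le_abs_self C, abs_nonneg C']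
  refine ⟨?_, f1 1 (by simp), f1 I (by simp), ?_⟩
  · have h1 := cut_sq b1 c ρ z
    have h2 : |cut b1 c ρ z| ≤ 1 := by
      rw [← sq_abs] at h1
      nlinarith [abs_nonneg (cut b1 c ρ z)]
    linarith [abs_nonneg C, abs_nonneg C']
  · have e0 : (fun w => fderiv ℝ (cut b1 c ρ) w 1) =
        fun w => ρ⁻¹ * (fun x => fderiv ℝ (b1 : ℂ → ℝ) x 1) (ρ⁻¹ • (w - c)) := by
      funext w
      exact fd_scale (hcd.differentiable (by simp)) ρ c w 1
    have d2 : DifferentiableAt ℝ (fun w => (fun x => fderiv ℝ (b1 : ℂ → ℝ) x 1) (ρ⁻¹ • (w - c))) z := by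
      have : ContDiff ℝ ∞ (fun w : ℂ => ρ⁻¹ • (w - c)) := (contDiff_id.sub contDiff_const).const_smul ρ⁻¹
      exact ((c1.comp this).differentiable (by simp)) z
    rw [e0, fderiv_const_mul d2]
    have e2 : fderiv ℝ (fun w => (fun x => fderiv ℝ (b1 : ℂ → ℝ) x 1) (ρ⁻¹ • (w - c))) z I =
        ρ⁻¹ * fderiv ℝ (fun x => fderiv ℝ (b1 : ℂ → ℝ) x 1) (ρ⁻¹ • (z - c)) I :=
      fd_scale (g := fun x => fderiv ℝ (b1 : ℂ → ℝ) x 1) (c1.differentiable (by simp)) ρ c z I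
    show |ρ⁻¹ • (fderiv ℝ (fun w => (fun x => fderiv ℝ (b1 : ℂ → ℝ) x 1) (ρ⁻¹ • (w - c))) z) I| ≤ _
    rw [smul_eq_mul, e2, abs_mul, abs_mul, abs_of_pos (inv_pos.2 hρ), sq, ← mul_assoc, ← mul_inv, inv_mul_eq_div]
    refine div_le_div_of_nonneg_right ?_ (by positivity)
    have h1 := (fderiv ℝ (fun x => fderiv ℝ (b1 : ℂ → ℝ) x 1) (ρ⁻¹ • (z - c))).le_opNorm I
    rw [Complex.norm_I, mul_one, Real.norm_eq_abs] at h1
    have := hC' (ρ⁻¹ • (z - c))
    linarith [le_abs_self C', abs_nonneg C]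

/-- the local energy of order two at scale `ρ` -/
def EE (ρ : ℝ) (f : ℂ → ℝ) (z : ℂ) : ℝ :=
  fderiv ℝ (fun w => fderiv ℝ f w 1) z I ^ 2 + (fderiv ℝ f z 1 ^ 2 + fderiv ℝ f z I ^ 2) / ρ ^ 2 +
    f z ^ 2 / ρ ^ 4

lemma EE_cont (ρ : ℝ) {f : ℂ → ℝ} (hf : ContDiffOn ℝ ∞ f HH) : ContinuousOn (EE ρ f) HH := by
  have c1 : ContDiffOn ℝ ∞ (fun w => fderiv ℝ f w 1) HH := cdd HHop hf 1
  have c2 : ContDiffOn ℝ ∞ (fun w => fderiv ℝ f w I) HH := cdd HHop hf I
  have c3 : ContDiffOn ℝ ∞ (fun z => fderiv ℝ (fun w => fderiv ℝ f w 1) z I) HH := cdd HHop c1 I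
  unfold EE
  exact ((c3.continuousOn.pow 2).add (((c1.continuousOn.pow 2).add (c2.continuousOn.pow 2)).div_const _)).add
    ((hf.continuousOn.pow 2).div_const _)

lemma EE_nonneg (ρ : ℝ) (f : ℂ → ℝ) (z : ℂ) : 0 ≤ EE ρ f z := by
  unfold EE; positivity

/-- the bound on a small disc -/
theorem disc_sup : ∃ C : ℝ, 0 < C ∧ ∀ (ρ : ℝ) (c : ℂ), 0 < ρ → Metric.closedBall c (2 * ρ) ⊆ HH →
    ∀ f : ℂ → ℝ, ContDiffOn ℝ ∞ f HH → ∀ w ∈ Metric.ball c ρ,
    f w ^ 2 ≤ C * ρ ^ 2 * ∫ z in Metric.closedBall c (2 * ρ), EE ρ f z := by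
  obtain ⟨M, hM, hcut⟩ := cut_bd
  have hpi := Real.pi_pos
  refine ⟨64 * Real.pi * M ^ 2, by positivity, ?_⟩
  intro ρ c hρ hsub f hf w hw
  set χ := cut b1 c ρ with hχ
  set S := Metric.closedBall c (2 * ρ) with hS
  have hsuppS : Metric.closedBall c (b1.rOut * ρ) ⊆ S := by
    refine Metric.closedBall_subset_closedBall ?_
    have : b1.rOut = 3 / 2 := rfl
    rw [this]; linarith
  have tf : TF HH χ := cut_tf b1 c hρ (hsuppS.trans hsub)
  have hsupp : tsupport χ ⊆ S := (cut_supp b1 c hρ).trans hsuppS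
  have cV : ContDiff ℝ ∞ (fun z => χ z * f z) := prod_cd HHop tf hf
  have cχ : ContDiff ℝ ∞ χ := cut_cd b1 c ρ
  have c1 : ContDiffOn ℝ ∞ (fun w => fderiv ℝ f w 1) HH := cdd HHop hf 1
  -- the mixed derivative of the product
  set g : ℂ → ℝ := fun z => fderiv ℝ (fun w => fderiv ℝ (fun z => χ z * f z) w 1) z I with hg
  have cg : ContDiff ℝ ∞ g := by
    have a1 : ContDiff ℝ ∞ (fun w => fderiv ℝ (fun z => χ z * f z) w 1) :=
      (cV.fderiv_right (m := ∞) (by simp)).clm_apply contDiff_const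
    exact (a1.fderiv_right (m := ∞) (by simp)).clm_apply contDiff_const
  have g0 : ∀ z, z ∉ S → g z = 0 := by
    intro z hz
    have hzs : z ∉ tsupport χ := fun h => hz (hsupp h)
    have h1 : (fun z => χ z * f z) =ᶠ[𝓝 z] fun _ => 0 := by
      filter_upwards [(isClosed_tsupport χ).isOpen_compl.mem_nhds hzs] with x hx
      rw [image_eq_zero_of_notMem_tsupport hx, zero_mul]
    have h2 : (fun w => fderiv ℝ (fun z => χ z * f z) w 1) =ᶠ[𝓝 z] fun _ => 0 := by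
      filter_upwards [h1.fderiv (𝕜 := ℝ)] with x hx
      rw [hx]; simp
    show fderiv ℝ (fun w => fderiv ℝ (fun z => χ z * f z) w 1) z I = 0
    rw [h2.fderiv_eq]; simp
  have dχ : ∀ z, DifferentiableAt ℝ χ z := fun z => cχ.differentiable (by simp) z
  have cχ1 : ContDiff ℝ ∞ (fun w => fderiv ℝ χ w 1) :=
    (cχ.fderiv_right (m := ∞) (by simp)).clm_apply contDiff_const
  have gform : ∀ z ∈ HH, g z = χ z * fderiv ℝ (fun w => fderiv ℝ f w 1) z I + fderiv ℝ χ z I * fderiv ℝ f z 1 +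
      (fderiv ℝ χ z 1 * fderiv ℝ f z I + fderiv ℝ (fun w => fderiv ℝ χ w 1) z I * f z) := by
    intro z hz
    have e1 : (fun w => fderiv ℝ (fun z => χ z * f z) w 1) =ᶠ[𝓝 z]
        fun w => χ w * fderiv ℝ f w 1 + fderiv ℝ χ w 1 * f w := by
      filter_upwards [HHop.mem_nhds hz] with w hw
      rw [fderiv_fun_mul (dχ w) (dAt hf hw)]
      simp only [ContinuousLinearMap.add_apply, ContinuousLinearMap.smul_apply, smul_eq_mul]
      ring
    show fderiv ℝ (fun w => fderiv ℝ (fun z => χ z * f z) w 1) z I = _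
    rw [e1.fderiv_eq, fderiv_fun_add ((dχ z).fun_mul (dAt c1 hz))
      ((cχ1.differentiable (by simp) z).fun_mul (dAt hf hz)),
      fderiv_fun_mul (dχ z) (dAt c1 hz), fderiv_fun_mul (cχ1.differentiable (by simp) z) (dAt hf hz)]
    simp only [ContinuousLinearMap.add_apply, ContinuousLinearMap.smul_apply, smul_eq_mul]
    ring
  -- the pointwise bound
  have gbd : ∀ z ∈ S, g z ^ 2 ≤ 4 * M ^ 2 * EE ρ f z := by
    intro z hz
    obtain ⟨k1, k2, k3, k4⟩ := hcut ρ hρ c z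
    rw [gform z (hsub hz)]
    unfold EE
    set A := fderiv ℝ (fun w => fderiv ℝ f w 1) z I
    set P := fderiv ℝ f z 1
    set Q := fderiv ℝ f z I
    set R := f z
    have m1 : (χ z * A) ^ 2 ≤ M ^ 2 * A ^ 2 := by
      rw [mul_pow, ← sq_abs (χ z)]
      exact mul_le_mul_of_nonneg_right (pow_le_pow_left₀ (abs_nonneg _) k1 2) (sq_nonneg _)
    have m2 : (fderiv ℝ χ z I * P) ^ 2 ≤ M ^ 2 * (P ^ 2 / ρ ^ 2) := by
      rw [mul_pow, ← sq_abs (fderiv ℝ χ z I)]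
      calc |fderiv ℝ χ z I| ^ 2 * P ^ 2 ≤ (M / ρ) ^ 2 * P ^ 2 :=
            mul_le_mul_of_nonneg_right (pow_le_pow_left₀ (abs_nonneg _) k3 2) (sq_nonneg _)
        _ = _ := by rw [div_pow]; ring
    have m3 : (fderiv ℝ χ z 1 * Q) ^ 2 ≤ M ^ 2 * (Q ^ 2 / ρ ^ 2) := by
      rw [mul_pow, ← sq_abs (fderiv ℝ χ z 1)]
      calc |fderiv ℝ χ z 1| ^ 2 * Q ^ 2 ≤ (M / ρ) ^ 2 * Q ^ 2 :=
            mul_le_mul_of_nonneg_right (pow_le_pow_left₀ (abs_nonneg _) k2 2) (sq_nonneg _)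
        _ = _ := by rw [div_pow]; ring
    have m4 : (fderiv ℝ (fun w => fderiv ℝ χ w 1) z I * R) ^ 2 ≤ M ^ 2 * (R ^ 2 / ρ ^ 4) := by
      rw [mul_pow, ← sq_abs (fderiv ℝ (fun w => fderiv ℝ χ w 1) z I)]
      calc |fderiv ℝ (fun w => fderiv ℝ χ w 1) z I| ^ 2 * R ^ 2 ≤ (M / ρ ^ 2) ^ 2 * R ^ 2 :=
            mul_le_mul_of_nonneg_right (pow_le_pow_left₀ (abs_nonneg _) k4 2) (sq_nonneg _)
        _ = _ := by rw [div_pow]; ring
    have m5 : ∀ a b c d : ℝ, (a + b + (c + d)) ^ 2 ≤ 4 * (a ^ 2 + b ^ 2 + c ^ 2 + d ^ 2) := by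
      intro a b c d
      nlinarith [sq_nonneg (a - b), sq_nonneg (a - c), sq_nonneg (a - d), sq_nonneg (b - c), sq_nonneg (b - d),
        sq_nonneg (c - d)]
    refine (m5 _ _ _ _).trans ?_
    have e : 4 * M ^ 2 * (A ^ 2 + (P ^ 2 + Q ^ 2) / ρ ^ 2 + R ^ 2 / ρ ^ 4) =
        4 * (M ^ 2 * A ^ 2 + M ^ 2 * (P ^ 2 / ρ ^ 2) + M ^ 2 * (Q ^ 2 / ρ ^ 2) + M ^ 2 * (R ^ 2 / ρ ^ 4)) := by ring
    rw [e]
    linarith
  -- the Sobolev inequality
  have cU : ContDiff ℝ ∞ (fun z => ((χ z * f z : ℝ) : ℂ)) := Complex.ofRealCLM.contDiff.comp cV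
  have sU : HasCompactSupport (fun z => ((χ z * f z : ℝ) : ℂ)) := by
    refine HasCompactSupport.intro tf.2.1 fun z hz => ?_
    rw [image_eq_zero_of_notMem_tsupport hz]; simp
  have h1 := Pool.Agent.TH421.DF.sup_le cU sU w
  have hfc : ∀ (G : ℂ → ℝ), ContDiff ℝ ∞ G → ∀ z v : ℂ,
      fderiv ℝ (fun w => ((G w : ℝ) : ℂ)) z v = ((fderiv ℝ G z v : ℝ) : ℂ) := fun G hG z v =>
    fd_cast (hG.differentiable (by simp) z) v
  have e2 : ∀ z, ‖fderiv ℝ (fun w' => fderiv ℝ (fun z => ((χ z * f z : ℝ) : ℂ)) w' 1) z I‖ = |g z| := by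
    intro z
    have a1 : (fun w' => fderiv ℝ (fun z => ((χ z * f z : ℝ) : ℂ)) w' 1) =
        fun w' => ((fderiv ℝ (fun z => χ z * f z) w' 1 : ℝ) : ℂ) := by
      funext w'; exact hfc _ cV w' 1
    rw [a1, hfc _ ((cV.fderiv_right (m := ∞) (by simp)).clm_apply contDiff_const) z I, Complex.norm_real,
      Real.norm_eq_abs]
  simp only [e2] at h1
  have hχw : χ w = 1 := cut_one b1 c hρ (by
    have : b1.rIn = 1 := rfl
    rw [this, one_mul]; exact hw)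
  rw [hχw, one_mul, Complex.norm_real, Real.norm_eq_abs] at h1
  have e3 : ∫ z, |g z| = ∫ z in S, |g z| := by
    refine (setIntegral_eq_integral_of_forall_compl_eq_zero fun z hz => ?_).symm
    rw [g0 z hz, abs_zero]
  rw [e3] at h1
  have Sc : IsCompact S := isCompact_closedBall _ _
  have iE : IntegrableOn (EE ρ f) S := ((EE_cont ρ hf).mono hsub).integrableOn_compact Sc
  have ig2 : IntegrableOn (fun z => g z ^ 2) S := (cg.continuous.pow 2).continuousOn.integrableOn_compact Sc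
  have ig : IntegrableOn (fun z => |g z|) S := cg.continuous.abs.continuousOn.integrableOn_compact Sc
  have vS : volume.real S = Real.pi * (2 * ρ) ^ 2 := by
    rw [hS, Measure.real, Complex.volume_closedBall, ENNReal.toReal_mul, ENNReal.toReal_pow,
      ENNReal.toReal_ofReal (by positivity)]
    simp only [ENNReal.coe_toReal, NNReal.coe_real_pi]
    ring
  -- Cauchy-Schwarz
  set G2 := ∫ z in S, g z ^ 2 with hG2
  set G1 := ∫ z in S, |g z| with hG1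
  have G10 : 0 ≤ G1 := integral_nonneg fun _ => abs_nonneg _
  have cs : G1 ^ 2 ≤ (Real.pi * (2 * ρ) ^ 2) * G2 := by
    set V := Real.pi * (2 * ρ) ^ 2 with hV
    have Vp : 0 < V := by positivity
    have k : ∀ z, |g z| ≤ (V / 2) * (g z ^ 2 * (1 / V)) * 0 + |g z| := fun z => by simp
    have key : 0 ≤ ∫ z in S, (|g z| - G1 / V) ^ 2 := integral_nonneg fun _ => sq_nonneg _
    have e5 : ∫ z in S, (|g z| - G1 / V) ^ 2 = G2 - 2 * (G1 / V) * G1 + (G1 / V) ^ 2 * V := by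
      have a1 : (fun z => (|g z| - G1 / V) ^ 2) = fun z => (g z ^ 2 - 2 * (G1 / V) * |g z|) + (G1 / V) ^ 2 := by
        funext z
        rw [sub_sq, sq_abs]; ring
      have i3 : IntegrableOn (fun z => 2 * (G1 / V) * |g z|) S := ig.const_mul _
      have i4 : IntegrableOn (fun _ : ℂ => (G1 / V) ^ 2) S := integrableOn_const (Sc.measure_lt_top.ne)
      have i5 : IntegrableOn (fun z => g z ^ 2 - 2 * (G1 / V) * |g z|) S := ig2.sub i3
      rw [a1, integral_add i5 i4, integral_sub ig2 i3, integral_const_mul, setIntegral_const, vS, smul_eq_mul]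
      ring
    rw [e5] at key
    have e6 : G2 - 2 * (G1 / V) * G1 + (G1 / V) ^ 2 * V = G2 - G1 ^ 2 / V := by
      field_simp
      ring
    rw [e6] at key
    have e7 : G1 ^ 2 / V ≤ G2 := by linarith
    rw [div_le_iff₀ Vp] at e7
    linarith
  have G2E : G2 ≤ 4 * M ^ 2 * ∫ z in S, EE ρ f z := by
    rw [hG2, ← integral_const_mul]
    exact setIntegral_mono_on ig2 (iE.const_mul _) Sc.measurableSet gbd
  have h2 : f w ^ 2 ≤ G1 ^ 2 := by
    rw [← sq_abs (f w)]; exact pow_le_pow_left₀ (abs_nonneg _) h1 2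
  calc f w ^ 2 ≤ G1 ^ 2 := h2
    _ ≤ (Real.pi * (2 * ρ) ^ 2) * G2 := cs
    _ ≤ (Real.pi * (2 * ρ) ^ 2) * (4 * M ^ 2 * ∫ z in S, EE ρ f z) :=
        mul_le_mul_of_nonneg_left G2E (by positivity)
    _ = 16 * Real.pi * M ^ 2 * ρ ^ 2 * ∫ z in S, EE ρ f z := by ring
    _ ≤ _ := by
        have : 0 ≤ ∫ z in S, EE ρ f z := integral_nonneg fun z => EE_nonneg ρ f z
        have h5 : 0 ≤ Real.pi * M ^ 2 * ρ ^ 2 * ∫ z in S, EE ρ f z := by positivity
        nlinarith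

/-- a compact neighbourhood of the part of the fundamental domain below height `Y` -/
def K3 (Y : ℝ) : Set ℂ := {z : ℂ | |z.re| ≤ 6 / 10 ∧ 82 / 100 ≤ z.im ∧ z.im ≤ Y + 1}

lemma K3B (Y : ℝ) : K3 Y ⊆ BB := fun z hz => by
  obtain ⟨h1, h2, -⟩ := hz
  refine ⟨?_, ?_⟩
  · show |z.re| < 1
    linarith
  · show 4 / 5 < z.im
    linarith

lemma K3c (Y : ℝ) : IsCompact (K3 Y) := by
  refine Metric.isCompact_of_isClosed_isBounded ?_ ?_
  · have h1 : IsClosed {z : ℂ | |z.re| ≤ 6 / 10} := isClosed_le (continuous_abs.comp continuous_re) continuous_const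
    have h3 : IsClosed {z : ℂ | 82 / 100 ≤ z.im} := isClosed_le continuous_const continuous_im
    have h4 : IsClosed {z : ℂ | z.im ≤ Y + 1} := isClosed_le continuous_im continuous_const
    exact h1.inter (h3.inter h4)
  · refine (Metric.isBounded_closedBall (x := (0 : ℂ)) (r := 2 + |Y|)).subset ?_
    intro z hz
    obtain ⟨h1, h3, h4⟩ := hz
    rw [mem_closedBall_zero_iff]
    refine (Complex.norm_le_abs_re_add_abs_im z).trans ?_
    rw [abs_of_nonneg (by linarith : (0 : ℝ) ≤ z.im)]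
    have := le_abs_self Y
    linarith

lemma ball_K3 {Y : ℝ} {c : ℂ} (hc : c ∈ KK Y) {r : ℝ} (hr : r ≤ 4 / 100) : Metric.closedBall c r ⊆ K3 Y := by
  intro w hw
  rw [Metric.mem_closedBall, dist_eq_norm] at hw
  have h1 : |(w - c).im| ≤ r := (Complex.abs_im_le_norm _).trans hw
  have h2 : |(w - c).re| ≤ r := (Complex.abs_re_le_norm _).trans hw
  rw [sub_im] at h1
  rw [sub_re] at h2
  obtain ⟨a1, a2⟩ := abs_le.1 h1
  obtain ⟨b1, b2⟩ := abs_le.1 h2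
  obtain ⟨c1, c2⟩ := abs_le.1 hc.1
  have hcB := KKB Y hc
  have hci : 4 / 5 < c.im := hcB.2
  have hzz : 3 / 4 ≤ c.im ^ 2 := by
    have h4 : 1 ≤ normSq c := by
      rw [normSq_eq_norm_sq]; nlinarith [hc.2.1, norm_nonneg c]
    rw [normSq_apply] at h4
    nlinarith
  have hz86 : 86 / 100 ≤ c.im := by nlinarith
  refine ⟨?_, by linarith, by linarith [hc.2.2.2]⟩
  rw [abs_le]; constructor <;> linarith

/-- **suprema over discs of radius `1/(100 T)`, summed over the family** -/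
theorem sup_sum (Y : ℝ) : ∃ C : ℝ, 0 < C ∧ ∀ T : ℝ, 1 ≤ T →
    ∀ (m : ℕ) (t : Fin m → ℝ) (f : Fin m → ℂ → ℝ), (∀ i, Form (t i) (f i)) → Orth f → (∀ i, |t i| ≤ T) →
    ∀ (N : ℕ) (c : Fin N → ℂ), (∀ k, c k ∈ KK Y) → ∀ w : Fin m → ℂ,
    (∀ i, ∃ k, w i ∈ Metric.ball (c k) (1 / (100 * T))) → ∑ i, f i (w i) ^ 2 ≤ C * N * T ^ 2 := by
  obtain ⟨A0, hA0, h0⟩ := weyl0 (K3c Y) (K3B Y)
  obtain ⟨A1, hA1, h1⟩ := weyl1 1 (Or.inl rfl) (K3c Y) (K3B Y)
  obtain ⟨A2, hA2, h2⟩ := weyl1 I (Or.inr rfl) (K3c Y) (K3B Y)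
  obtain ⟨A3, hA3, h3⟩ := weyl2 (K3c Y) (K3B Y)
  obtain ⟨C, hC, hdisc⟩ := disc_sup
  have hpi := Real.pi_pos
  set B : ℝ := A3 + (A1 + A2) * 100 ^ 2 + A0 * 100 ^ 4 with hB
  have hB0 : 0 < B := by positivity
  refine ⟨C * (4 * Real.pi) * B, by positivity, ?_⟩
  intro T hT m t f hf ho ht N c hc w hw
  have T0 : 0 < T := by linarith
  set ρ : ℝ := 1 / (100 * T) with hρ
  have ρ0 : 0 < ρ := by positivity
  have ρle : ρ ≤ 1 / 100 := by
    rw [hρ]
    exact one_div_le_one_div_of_le (by norm_num) (by linarith)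
  have hsub : ∀ k, Metric.closedBall (c k) (2 * ρ) ⊆ K3 Y := fun k => ball_K3 (hc k) (by linarith)
  have hsubH : ∀ k, Metric.closedBall (c k) (2 * ρ) ⊆ HH := fun k => (hsub k).trans ((K3B Y).trans BH)
  have iE : ∀ i k, IntegrableOn (EE ρ (f i)) (Metric.closedBall (c k) (2 * ρ)) := fun i k =>
    ((EE_cont ρ (hf i).sm).mono (hsubH k)).integrableOn_compact (isCompact_closedBall _ _)
  -- the energy of the family
  have hE : ∀ z ∈ K3 Y, ∑ i, EE ρ (f i) z ≤ B * T ^ 6 := by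
    intro z hz
    have k0 := h0 T hT m t f hf ho ht z hz
    have k1 := h1 T hT m t f hf ho ht z hz
    have k2 := h2 T hT m t f hf ho ht z hz
    have k3 := h3 T hT m t f hf ho ht z hz
    unfold EE
    rw [Finset.sum_add_distrib, Finset.sum_add_distrib, ← Finset.sum_div, ← Finset.sum_div,
      Finset.sum_add_distrib]
    have e1 : ρ ^ 2 = 1 / (100 ^ 2 * T ^ 2) := by rw [hρ, div_pow, one_pow, mul_pow]
    have e2 : ρ ^ 4 = 1 / (100 ^ 4 * T ^ 4) := by rw [hρ, div_pow, one_pow, mul_pow]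
    have k4 : (∑ i, fderiv ℝ (f i) z 1 ^ 2 + ∑ i, fderiv ℝ (f i) z I ^ 2) / ρ ^ 2 ≤
        (A1 + A2) * 100 ^ 2 * T ^ 6 := by
      rw [e1, div_div_eq_mul_div, div_one]
      calc (∑ i, fderiv ℝ (f i) z 1 ^ 2 + ∑ i, fderiv ℝ (f i) z I ^ 2) * (100 ^ 2 * T ^ 2) ≤
            (A1 * T ^ 4 + A2 * T ^ 4) * (100 ^ 2 * T ^ 2) :=
            mul_le_mul_of_nonneg_right (add_le_add k1 k2) (by positivity)
        _ = _ := by ring
    have k5 : (∑ i, f i z ^ 2) / ρ ^ 4 ≤ A0 * 100 ^ 4 * T ^ 6 := by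
      rw [e2, div_div_eq_mul_div, div_one]
      calc (∑ i, f i z ^ 2) * (100 ^ 4 * T ^ 4) ≤ (A0 * T ^ 2) * (100 ^ 4 * T ^ 4) :=
            mul_le_mul_of_nonneg_right k0 (by positivity)
        _ = _ := by ring
    rw [hB]
    calc _ ≤ A3 * T ^ 6 + (A1 + A2) * 100 ^ 2 * T ^ 6 + A0 * 100 ^ 4 * T ^ 6 :=
          add_le_add (add_le_add k3 k4) k5
      _ = _ := by ring
  -- each form
  have hone : ∀ i, f i (w i) ^ 2 ≤ ∑ k, C * ρ ^ 2 * ∫ z in Metric.closedBall (c k) (2 * ρ), EE ρ (f i) z := by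
    intro i
    obtain ⟨k, hk⟩ := hw i
    refine (hdisc ρ (c k) ρ0 (hsubH k) (f i) (hf i).sm (w i) hk).trans ?_
    refine Finset.single_le_sum (f := fun k => C * ρ ^ 2 * ∫ z in Metric.closedBall (c k) (2 * ρ), EE ρ (f i) z)
      (fun k _ => ?_) (Finset.mem_univ k)
    have : 0 ≤ ∫ z in Metric.closedBall (c k) (2 * ρ), EE ρ (f i) z := integral_nonneg fun z => EE_nonneg _ _ _
    positivity
  refine (Finset.sum_le_sum fun i _ => hone i).trans ?_
  rw [Finset.sum_comm]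
  have hk : ∀ k, ∑ i, C * ρ ^ 2 * ∫ z in Metric.closedBall (c k) (2 * ρ), EE ρ (f i) z ≤
      C * (4 * Real.pi) * B * T ^ 2 := by
    intro k
    rw [← Finset.mul_sum, ← integral_finset_sum _ fun i _ => iE i k]
    have hint : ∫ z in Metric.closedBall (c k) (2 * ρ), ∑ i, EE ρ (f i) z ≤
        ∫ z in Metric.closedBall (c k) (2 * ρ), B * T ^ 6 :=
      setIntegral_mono_on (integrable_finset_sum _ fun i _ => iE i k)
        (integrableOn_const (isCompact_closedBall _ _).measure_lt_top.ne)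
        (isCompact_closedBall _ _).measurableSet fun z hz => hE z (hsub k hz)
    have vS : volume.real (Metric.closedBall (c k) (2 * ρ)) = Real.pi * (2 * ρ) ^ 2 := by
      rw [Measure.real, Complex.volume_closedBall, ENNReal.toReal_mul, ENNReal.toReal_pow,
        ENNReal.toReal_ofReal (by positivity)]
      simp only [ENNReal.coe_toReal, NNReal.coe_real_pi]
      ring
    rw [setIntegral_const, vS, smul_eq_mul] at hint
    calc C * ρ ^ 2 * ∫ z in Metric.closedBall (c k) (2 * ρ), ∑ i, EE ρ (f i) z ≤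
          C * ρ ^ 2 * (Real.pi * (2 * ρ) ^ 2 * (B * T ^ 6)) :=
          mul_le_mul_of_nonneg_left hint (by positivity)
      _ = C * (4 * Real.pi) * B * T ^ 2 * (ρ ^ 4 * T ^ 4) := by ring
      _ ≤ C * (4 * Real.pi) * B * T ^ 2 * 1 := by
          refine mul_le_mul_of_nonneg_left ?_ (by positivity)
          rw [← mul_pow]
          refine pow_le_one₀ (by positivity) ?_
          have : ρ * T = 1 / 100 := by rw [hρ]; field_simp
          rw [this]; norm_num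
      _ = _ := by ring
  refine (Finset.sum_le_sum fun k _ => hk k).trans (le_of_eq ?_)
  rw [Finset.sum_const, Finset.card_univ, Fintype.card_fin, nsmul_eq_mul]
  ring

end

end Pool.Agent.R314.JM
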