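import Pool.Agent.Y265.HY.SB7
import Pool.Agent.R314.JM.Cov

/-!
# The local Weyl bound for automorphic eigenfunctions
-/

set_option autoImplicit false
open MeasureTheory Filter Topology Complex Set
open scoped ContDiff ENNReal

namespace Pool.Agent.R314.JM

open Pool.Agent.W745.RW Pool.Agent.TH294.RS Pool.Agent.Y265.HY

noncomputable section

/-- the eigenvalue `1/4 + t²` -/
def lam (t : ℝ) : ℝ := 1 / 4 + t ^ 2

/-- square integrable automorphic eigenfunctions -/
structure Form (t : ℝ) (f : ℂ → ℝ) : Prop where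
  sm : ContDiffOn ℝ ∞ f HH
  eq : ∀ z ∈ HH, -(z.im ^ 2 * lap f z) = lam t * f z
  inv : Inv f
  int : IntegrableOn (fun z => f z ^ 2 / z.im ^ 2) DD

/-- orthogonal, with mean square one -/
def Orth {m : ℕ} (f : Fin m → ℂ → ℝ) : Prop :=
  ∀ i j, ∫ z in DD, f i z * f j z / z.im ^ 2 = if i = j then Real.pi / 3 else 0

/-- linear combinations -/
def comb {m : ℕ} (c : Fin m → ℝ) (f : Fin m → ℂ → ℝ) (z : ℂ) : ℝ := ∑ i, c i * f i z

lemma HHop : IsOpen HH := isOpen_lt continuous_const continuous_im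

lemma BBop : IsOpen BB := by
  have h1 : IsOpen {z : ℂ | |z.re| < 1} := isOpen_lt (continuous_abs.comp continuous_re) continuous_const
  have h2 : IsOpen {z : ℂ | 4 / 5 < z.im} := isOpen_lt continuous_const continuous_im
  exact h1.inter h2

lemma BH : BB ⊆ HH := fun z h => by
  have := h.2
  show 0 < z.im
  linarith

lemma wcont {F : ℂ → ℝ} (hF : ContinuousOn F HH) : ContinuousOn (fun z => F z / z.im ^ 2) HH :=
  hF.div (Complex.continuous_im.continuousOn.pow 2) fun z hz => by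
    have : 0 < z.im := hz
    positivity

lemma int_mul' {f g : ℂ → ℝ} (hf : ContinuousOn f HH) (hg : ContinuousOn g HH)
    (if' : IntegrableOn (fun z => f z ^ 2 / z.im ^ 2) DD)
    (ig : IntegrableOn (fun z => g z ^ 2 / z.im ^ 2) DD) :
    IntegrableOn (fun z => f z * g z / z.im ^ 2) DD := by
  refine (if'.add ig).mono' (((wcont (hf.mul hg)).mono DH).aestronglyMeasurable mS) (ae_of_all _ fun z => ?_)
  rw [Real.norm_eq_abs, abs_div, abs_of_nonneg (sq_nonneg z.im)]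
  simp only [Pi.add_apply]
  rw [← add_div]
  gcongr
  rw [abs_mul]
  nlinarith [sq_nonneg (|f z| - |g z|), sq_abs (f z), sq_abs (g z)]

lemma Form.mul {s t : ℝ} {f g : ℂ → ℝ} (hf : Form s f) (hg : Form t g) :
    IntegrableOn (fun z => f z * g z / z.im ^ 2) DD :=
  int_mul' hf.sm.continuousOn hg.sm.continuousOn hf.int hg.int

section
variable {m : ℕ} {t : Fin m → ℝ} {f : Fin m → ℂ → ℝ}

lemma comb_sm (hf : ∀ i, Form (t i) (f i)) (c : Fin m → ℝ) : ContDiffOn ℝ ∞ (comb c f) HH := by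
  unfold comb
  exact ContDiffOn.sum fun i _ => contDiffOn_const.mul (hf i).sm

lemma comb_inv (hf : ∀ i, Form (t i) (f i)) (c : Fin m → ℝ) : Inv (fun z => comb c f z ^ 2) := by
  intro z hz
  have h1 : comb c f (z + 1) = comb c f z := Finset.sum_congr rfl fun i _ => by rw [((hf i).inv z hz).1]
  have h2 : comb c f (-z⁻¹) = comb c f z := Finset.sum_congr rfl fun i _ => by rw [((hf i).inv z hz).2]
  exact ⟨by simp only [h1], by simp only [h2]⟩

lemma comb_sq (c : Fin m → ℝ) (z : ℂ) : comb c f z ^ 2 / z.im ^ 2 =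
    ∑ i, ∑ j, c i * c j * (f i z * f j z / z.im ^ 2) := by
  unfold comb
  rw [sq, Finset.sum_mul_sum, Finset.sum_div]
  refine Finset.sum_congr rfl fun i _ => ?_
  rw [Finset.sum_div]
  refine Finset.sum_congr rfl fun j _ => ?_
  ring

lemma comb_int (hf : ∀ i, Form (t i) (f i)) (c : Fin m → ℝ) :
    IntegrableOn (fun z => comb c f z ^ 2 / z.im ^ 2) DD := by
  simp only [comb_sq]
  exact integrable_finset_sum _ fun i _ => integrable_finset_sum _ fun j _ =>
    ((hf i).mul (hf j)).const_mul _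

lemma comb_norm (hf : ∀ i, Form (t i) (f i)) (ho : Orth f) (c : Fin m → ℝ) :
    ∫ z in DD, comb c f z ^ 2 / z.im ^ 2 = Real.pi / 3 * ∑ i, c i ^ 2 := by
  simp only [comb_sq]
  rw [integral_finset_sum _ fun i _ => integrable_finset_sum _ fun j _ =>
    ((hf i).mul (hf j)).const_mul _]
  rw [Finset.mul_sum]
  refine Finset.sum_congr rfl fun i _ => ?_
  rw [integral_finset_sum _ fun j _ => ((hf i).mul (hf j)).const_mul _]
  rw [Finset.sum_eq_single i]
  · rw [integral_const_mul, ho i i, if_pos rfl]; ring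
  · intro j _ hj
    rw [integral_const_mul, ho i j, if_neg (Ne.symm hj), mul_zero]
  · intro h; exact absurd (Finset.mem_univ i) h

lemma fd_comb (hf : ∀ i, ContDiffOn ℝ ∞ (f i) HH) (c : Fin m → ℝ) (v : ℂ) {z : ℂ} (hz : z ∈ HH) :
    fderiv ℝ (comb c f) z v = comb c (fun i z => fderiv ℝ (f i) z v) z := by
  have hd : ∀ i, DifferentiableAt ℝ (f i) z := fun i =>
    ((hf i).contDiffAt (HHop.mem_nhds hz)).differentiableAt (by simp)
  unfold comb
  rw [fderiv_fun_sum fun i _ => (hd i).const_mul (c i)]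
  rw [ContinuousLinearMap.sum_apply]
  refine Finset.sum_congr rfl fun i _ => ?_
  rw [fderiv_const_mul (hd i)]
  rfl

lemma lap_comb (hf : ∀ i, ContDiffOn ℝ ∞ (f i) HH) (c : Fin m → ℝ) {z : ℂ} (hz : z ∈ HH) :
    lap (comb c f) z = comb c (fun i => lap (f i)) z := by
  have key : ∀ v : ℂ, fderiv ℝ (fun w => fderiv ℝ (comb c f) w v) z v =
      comb c (fun i z => fderiv ℝ (fun w => fderiv ℝ (f i) w v) z v) z := by
    intro v
    have e : (fun w => fderiv ℝ (comb c f) w v) =ᶠ[𝓝 z] comb c (fun i z => fderiv ℝ (f i) z v) := by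
      filter_upwards [HHop.mem_nhds hz] with w hw using fd_comb hf c v hw
    rw [e.fderiv_eq]
    exact fd_comb (fun i => Pool.Agent.W249.RW.cdd HHop (hf i) v) c v hz
  have e1 : lap (comb c f) z = fderiv ℝ (fun w => fderiv ℝ (comb c f) w 1) z 1 +
      fderiv ℝ (fun w => fderiv ℝ (comb c f) w I) z I := rfl
  rw [e1, key, key]
  unfold comb
  rw [← Finset.sum_add_distrib]
  refine Finset.sum_congr rfl fun i _ => ?_
  have e2 : lap (f i) z = fderiv ℝ (fun w => fderiv ℝ (f i) w 1) z 1 +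
      fderiv ℝ (fun w => fderiv ℝ (f i) w I) z I := rfl
  show c i * fderiv ℝ (fun w => fderiv ℝ (f i) w 1) z 1 + c i * fderiv ℝ (fun w => fderiv ℝ (f i) w I) z I =
    c i * lap (f i) z
  rw [e2]; ring

end

lemma fd_cast {F : ℂ → ℝ} {z : ℂ} (hF : DifferentiableAt ℝ F z) (v : ℂ) :
    fderiv ℝ (fun w => ((F w : ℝ) : ℂ)) z v = ((fderiv ℝ F z v : ℝ) : ℂ) := by
  have := (Complex.ofRealCLM.hasFDerivAt.comp z hF.hasFDerivAt).fderiv
  have e : fderiv ℝ (fun w => ((F w : ℝ) : ℂ)) z = Complex.ofRealCLM.comp (fderiv ℝ F z) := this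
  rw [e]; rfl

lemma lap_cast {F : ℂ → ℝ} (hF : ContDiffOn ℝ ∞ F HH) {z : ℂ} (hz : z ∈ HH) :
    lap (fun w => ((F w : ℝ) : ℂ)) z = ((lap F z : ℝ) : ℂ) := by
  have hd : ∀ G : ℂ → ℝ, ContDiffOn ℝ ∞ G HH → ∀ w ∈ HH, DifferentiableAt ℝ G w := fun G hG w hw =>
    (hG.contDiffAt (HHop.mem_nhds hw)).differentiableAt (by simp)
  have key : ∀ v : ℂ, fderiv ℝ (fun w => fderiv ℝ (fun w => ((F w : ℝ) : ℂ)) w v) z v =
      ((fderiv ℝ (fun w => fderiv ℝ F w v) z v : ℝ) : ℂ) := by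
    intro v
    have e : (fun w => fderiv ℝ (fun w => ((F w : ℝ) : ℂ)) w v) =ᶠ[𝓝 z]
        fun w => ((fderiv ℝ F w v : ℝ) : ℂ) := by
      filter_upwards [HHop.mem_nhds hz] with w hw using fd_cast (hd F hF w hw) v
    rw [e.fderiv_eq]
    exact fd_cast (hd _ (Pool.Agent.W249.RW.cdd HHop hF v) z hz) v
  have e1 : lap (fun w => ((F w : ℝ) : ℂ)) z =
      fderiv ℝ (fun w => fderiv ℝ (fun w => ((F w : ℝ) : ℂ)) w 1) z 1 +
      fderiv ℝ (fun w => fderiv ℝ (fun w => ((F w : ℝ) : ℂ)) w I) z I := rfl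
  have e2 : lap F z = fderiv ℝ (fun w => fderiv ℝ F w 1) z 1 +
      fderiv ℝ (fun w => fderiv ℝ F w I) z I := rfl
  rw [e1, key, key, e2]
  push_cast; rfl

section
variable {m : ℕ → ℕ} {t : ∀ n, Fin (m n) → ℝ} {f : ∀ n, Fin (m n) → ℂ → ℝ} {h : ℕ → ℝ}

/-- all semiclassical derivatives of combinations of low eigenfunctions are bounded -/
theorem cls (hf : ∀ n i, Form (t n i) (f n i)) (ho : ∀ n, Orth (f n)) (hh : Tendsto h atTop (𝓝 0))
    (hl : ∀ n i, h n ^ 2 * lam (t n i) ≤ 2) (k : ℕ) : ∀ (c : ∀ n, Fin (m n) → ℝ) (A : ℝ),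
    (∀ n, ∑ i, c n i ^ 2 ≤ A) → M2 BB h k (fun n z => ((comb (c n) (f n) z : ℝ) : ℂ)) := by
  induction k with
  | zero =>
    intro c A hc
    have sm : ∀ n, ContDiffOn ℝ ∞ (fun z => ((comb (c n) (f n) z : ℝ) : ℂ)) BB := fun n =>
      (Complex.ofRealCLM.contDiff.comp_contDiffOn (comb_sm (hf n) (c n))).mono BH
    refine ⟨sm, fun K hK hKB => ?_⟩
    obtain ⟨Y, hY⟩ := hK.exists_bound_of_continuousOn (f := Complex.im) Complex.continuous_im.continuousOn
    refine ⟨Y ^ 2 * (12 * (Real.pi / 3 * A)), Eventually.of_forall fun n => ?_⟩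
    have hKH : K ⊆ HH := hKB.trans BH
    have cF : ContinuousOn (fun z => comb (c n) (f n) z ^ 2) HH := (comb_sm (hf n) (c n)).continuousOn.pow 2
    have h1 := covK (comb_inv (hf n) (c n)) cF (fun z => sq_nonneg _) (comb_int (hf n) (c n)) hK hKB
    rw [comb_norm (hf n) (ho n)] at h1
    have e : ∀ z, ‖((comb (c n) (f n) z : ℝ) : ℂ)‖ ^ 2 = comb (c n) (f n) z ^ 2 := fun z => by
      rw [Complex.norm_real, Real.norm_eq_abs, sq_abs]
    simp only [e]
    have h2 : ∫ z in K, comb (c n) (f n) z ^ 2 ≤ Y ^ 2 * ∫ z in K, comb (c n) (f n) z ^ 2 / z.im ^ 2 := by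
      rw [← integral_const_mul]
      refine setIntegral_mono_on ((cF.mono hKH).integrableOn_compact hK)
        ((continuousOn_const.mul ((wcont cF).mono hKH)).integrableOn_compact hK) hK.measurableSet fun z hz => ?_
      have hz' : 0 < z.im := hKH hz
      have hy : z.im ≤ Y := (le_abs_self _).trans (hY z hz)
      rw [mul_div_assoc', le_div_iff₀ (by positivity), mul_comm]
      exact mul_le_mul_of_nonneg_right (pow_le_pow_left₀ hz'.le hy 2) (sq_nonneg _)
    refine h2.trans (mul_le_mul_of_nonneg_left (h1.trans ?_) (sq_nonneg _))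
    have := Real.pi_pos
    gcongr
    exact hc n
  | succ k ih =>
    intro c A hc
    set c' : ∀ n, Fin (m n) → ℝ := fun n i => h n ^ 2 * lam (t n i) * c n i with hc'
    have hl0 : ∀ n i, 0 ≤ h n ^ 2 * lam (t n i) := fun n i => by unfold lam; positivity
    have h1 := ih c' (4 * A) (fun n => by
      have : ∀ i, c' n i ^ 2 ≤ 4 * c n i ^ 2 := fun i => by
        simp only [hc']
        rw [mul_pow]
        refine mul_le_mul_of_nonneg_right ?_ (sq_nonneg _)
        nlinarith [hl n i, hl0 n i]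
      calc ∑ i, c' n i ^ 2 ≤ ∑ i, 4 * c n i ^ 2 := Finset.sum_le_sum fun i _ => this i
        _ = 4 * ∑ i, c n i ^ 2 := by rw [Finset.mul_sum]
        _ ≤ 4 * A := by linarith [hc n])
    have sρ : ContDiffOn ℝ ∞ (fun z : ℂ => ((z.im : ℂ) ^ 2)⁻¹) BB := by
      refine ContDiffOn.inv (((Complex.ofRealCLM.comp imCLM).contDiff.pow 2).contDiffOn) fun z hz => ?_
      have : 0 < z.im := BH hz
      exact pow_ne_zero 2 (by exact_mod_cast this.ne')
    refine M2.ell BBop hh (ih c A hc) (M2.congr BBop ((h1.smulc BBop hh sρ).neg BBop hh) ?_)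
    intro n z hz
    have hzH : z ∈ HH := BH hz
    have hz0 : z.im ≠ 0 := ne_of_gt (hzH : 0 < z.im)
    simp only [hL]
    rw [lap_cast (comb_sm (hf n) (c n)) hzH, lap_comb (fun i => (hf n i).sm) (c n) hzH]
    have e : h n ^ 2 * comb (c n) (fun i => lap (f n i)) z = -((z.im ^ 2)⁻¹ * comb (c' n) (f n) z) := by
      unfold comb
      rw [Finset.mul_sum, Finset.mul_sum, ← Finset.sum_neg_distrib]
      refine Finset.sum_congr rfl fun i _ => ?_
      have h2 := (hf n i).eq z hzH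
      have h3 : lap (f n i) z = -(lam (t n i) * f n i z) / z.im ^ 2 := by
        rw [eq_div_iff (pow_ne_zero 2 hz0)]; linarith
      show h n ^ 2 * (c n i * lap (f n i) z) = -((z.im ^ 2)⁻¹ * (h n ^ 2 * lam (t n i) * c n i * f n i z))
      rw [h3]
      field_simp
    exact_mod_cast e

end

/-- the part of the fundamental domain below height `Y` -/
def KK (Y : ℝ) : Set ℂ := {z : ℂ | |z.re| ≤ 1 / 2 ∧ 1 ≤ ‖z‖ ∧ 0 ≤ z.im ∧ z.im ≤ Y}

lemma KKB (Y : ℝ) : KK Y ⊆ BB := by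
  intro z hz
  obtain ⟨h1, h2, h3, -⟩ := hz
  refine ⟨by show |z.re| < 1; linarith, ?_⟩
  show 4 / 5 < z.im
  have h4 : 1 ≤ normSq z := by
    rw [normSq_eq_norm_sq]; nlinarith
  rw [normSq_apply] at h4
  have h5 : z.re * z.re ≤ 1 / 4 := by
    obtain ⟨a, b⟩ := abs_le.1 h1
    nlinarith
  nlinarith

lemma KKc (Y : ℝ) : IsCompact (KK Y) := by
  refine Metric.isCompact_of_isClosed_isBounded ?_ ?_
  · have h1 : IsClosed {z : ℂ | |z.re| ≤ 1 / 2} := isClosed_le (continuous_abs.comp continuous_re) continuous_const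
    have h2 : IsClosed {z : ℂ | 1 ≤ ‖z‖} := isClosed_le continuous_const continuous_norm
    have h3 : IsClosed {z : ℂ | 0 ≤ z.im} := isClosed_le continuous_const continuous_im
    have h4 : IsClosed {z : ℂ | z.im ≤ Y} := isClosed_le continuous_im continuous_const
    exact h1.inter (h2.inter (h3.inter h4))
  · refine (Metric.isBounded_closedBall (x := (0 : ℂ)) (r := 1 + |Y|)).subset ?_
    intro z hz
    obtain ⟨h1, -, h3, h4⟩ := hz
    rw [mem_closedBall_zero_iff]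
    refine (Complex.norm_le_abs_re_add_abs_im z).trans ?_
    rw [abs_of_nonneg h3]
    have := le_abs_self Y
    linarith

/-- **the local Weyl bound** -/
theorem weyl (Y : ℝ) : ∃ C : ℝ, 0 < C ∧ ∀ T : ℝ, 1 ≤ T → ∀ (m : ℕ) (t : Fin m → ℝ) (f : Fin m → ℂ → ℝ),
    (∀ i, Form (t i) (f i)) → Orth f → (∀ i, |t i| ≤ T) → ∀ z ∈ KK Y, ∑ i, f i z ^ 2 ≤ C * T ^ 2 := by
  by_contra hcon
  push Not at hcon
  have hc2 : ∀ n : ℕ, ∃ T : ℝ, 1 ≤ T ∧ ∃ (m : ℕ) (t : Fin m → ℝ) (f : Fin m → ℂ → ℝ),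
    (∀ i, Form (t i) (f i)) ∧ Orth f ∧ (∀ i, |t i| ≤ T) ∧ ∃ z ∈ KK Y, ((n : ℝ) + 1) ^ 4 * T ^ 2 <
      ∑ i, f i z ^ 2 := fun n => hcon _ (by positivity)
  choose T hT m t f hf ho htT z hz hS using hc2
  have n1 : ∀ n : ℕ, (0 : ℝ) < (n : ℝ) + 1 := fun n => by positivity
  have T0 : ∀ n, 0 < T n := fun n => lt_of_lt_of_le one_pos (hT n)
  set h : ℕ → ℝ := fun n => 1 / (((n : ℝ) + 1) * T n) with hh
  have h0 : ∀ n, 0 < h n := fun n => by
    have := n1 n; have := T0 n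
    simp only [hh]; positivity
  have hlim : Tendsto h atTop (𝓝 0) := by
    refine squeeze_zero (fun n => (h0 n).le) (fun n => ?_) tendsto_one_div_add_atTop_nhds_zero_nat
    simp only [hh]
    refine one_div_le_one_div_of_le (n1 n) ?_
    nlinarith [n1 n, hT n]
  set S : ℕ → ℝ := fun n => ∑ i, f n i (z n) ^ 2 with hSd
  have S0 : ∀ n, 0 < S n := fun n => lt_trans (by have := n1 n; have := T0 n; positivity) (hS n)
  set c : ∀ n, Fin (m n) → ℝ := fun n i => f n i (z n) / √(S n) with hc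
  have c1 : ∀ n, ∑ i, c n i ^ 2 ≤ 1 := fun n => by
    simp only [hc, div_pow, Real.sq_sqrt (S0 n).le]
    rw [← Finset.sum_div, div_self (S0 n).ne']
  have hl : ∀ n i, h n ^ 2 * lam (t n i) ≤ 2 := by
    intro n i
    have h1 : t n i ^ 2 ≤ T n ^ 2 := by
      rw [← sq_abs (t n i)]; exact pow_le_pow_left₀ (abs_nonneg _) (htT n i) 2
    have h2 : h n ^ 2 * T n ^ 2 ≤ 1 := by
      have : h n * T n ≤ 1 := by
        simp only [hh]
        rw [one_div, mul_inv, mul_assoc, inv_mul_cancel₀ (T0 n).ne', mul_one]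
        exact inv_le_one_of_one_le₀ (by linarith [(Nat.cast_nonneg n : (0 : ℝ) ≤ n)])
      rw [← mul_pow]
      exact pow_le_one₀ (mul_nonneg (h0 n).le (T0 n).le) this
    have h3 : 1 ≤ T n ^ 2 := one_le_pow₀ (hT n)
    unfold lam
    have h4 : h n ^ 2 * (1 / 4 + t n i ^ 2) ≤ h n ^ 2 * (2 * T n ^ 2) :=
      mul_le_mul_of_nonneg_left (by linarith) (sq_nonneg _)
    linarith
  have HM : M2C BB h (fun n z => ((comb (c n) (f n) z : ℝ) : ℂ)) := fun k => cls hf ho hlim hl k c 1 c1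
  obtain ⟨C, hC0, hC⟩ := sup_m2 BBop hlim HM (KKc Y) (KKB Y)
  obtain ⟨N, hN⟩ := eventually_atTop.1 hC
  obtain ⟨N', hN'⟩ := exists_nat_gt C
  have k1 := hN (max N N') (le_max_left _ _) (z (max N N')) (hz (max N N'))
  set n := max N N' with hn
  have e1 : comb (c n) (f n) (z n) = √(S n) := by
    unfold comb
    simp only [hc]
    have : ∀ i, f n i (z n) / √(S n) * f n i (z n) = f n i (z n) ^ 2 / √(S n) := fun i => by ring
    simp only [this]
    rw [← Finset.sum_div]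
    show S n / √(S n) = √(S n)
    rw [Real.div_sqrt]
  rw [Complex.norm_real, e1, Real.norm_eq_abs, abs_of_nonneg (Real.sqrt_nonneg _), abs_of_pos (h0 n)] at k1
  have k2 : ((n : ℝ) + 1) ^ 2 * T n ≤ √(S n) := by
    refine Real.le_sqrt_of_sq_le ?_
    have := (hS n).le
    calc (((n : ℝ) + 1) ^ 2 * T n) ^ 2 = ((n : ℝ) + 1) ^ 4 * T n ^ 2 := by ring
      _ ≤ _ := this
  have k3 : h n * (((n : ℝ) + 1) ^ 2 * T n) = (n : ℝ) + 1 := by
    simp only [hh]
    have := (n1 n).ne'; have := (T0 n).ne'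
    field_simp
  have k4 := mul_le_mul_of_nonneg_left k2 (h0 n).le
  rw [k3] at k4
  have k5 : (N' : ℝ) ≤ n := by exact_mod_cast le_max_right N N'
  linarith

end

end Pool.Agent.R314.JM
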